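import Pool.Agent.V7H64.SP.Defs

/-!
# The recursive simulation of a deterministic pushdown automaton
-/

set_option autoImplicit false

namespace Pool.Agent.V7H64.SP

/-- The registers. -/
inductive Rg : Type
  | k | i | i0 | d | ri | rd | ci | z
  deriving DecidableEq, Fintype

/-- The control states. -/
structure Ctl (Q Γ : Type) where
  q0 : Q
  A0 : Γ
  q : Q
  A : Γ
  up : Bool
  rq : Q
  rA : Γ
  cq : Q
  cB : Γ
  cA : Γ
  fc : Bool
  fp : Bool
  kz : Bool
  got : Option Q
  fin : Bool
  rfin : Bool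
  ans : Option Q

instance (Q Γ : Type) [Finite Q] [Finite Γ] : Finite (Ctl Q Γ) := by
  refine Finite.of_injective (β := (Q × Γ × Q × Γ × Bool × Q × Γ × Q) ×
    (Γ × Γ × Bool × Bool × Bool × Option Q × Bool × Bool × Option Q))
    (fun c => ((c.q0, c.A0, c.q, c.A, c.up, c.rq, c.rA, c.cq),
      (c.cB, c.cA, c.fc, c.fp, c.kz, c.got, c.fin, c.rfin, c.ans))) ?_
  rintro ⟨⟩ ⟨⟩ h
  simp only [Prod.mk.injEq] at h
  obtain ⟨⟨rfl, rfl, rfl, rfl, rfl, rfl, rfl, rfl⟩, rfl, rfl, rfl, rfl, rfl, rfl, rfl, rfl, rfl⟩ := h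
  rfl

variable {S : Type}

/-- `v`, advanced if `a` is true -/
def adv (a : Bool) (v : Rg) : Src Rg := if a then Src.succ v else Src.copy v

theorem eval_adv (a : Bool) (v : Rg) (ρ : Rg → ℕ) : (adv a v).eval ρ = ρ v + a.toNat := by
  cases a <;> simp [adv, Src.eval]

abbrev F (S : Type) (M : DPDA S) : Type :=
  Ctl M.Q M.Γ → (Rg → Option S) → (Rg → Rg → Bool) → Ctl M.Q M.Γ × (Rg → Src Rg)

/-- only `x` is changed -/
def one (x : Rg) (s : Src Rg) (v : Rg) : Src Rg := if v = x then s else Src.copy v

/-- only `x` and `y` are changed -/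
def two (x : Rg) (s : Src Rg) (y : Rg) (s' : Src Rg) (v : Rg) : Src Rg :=
  if v = x then s else if v = y then s' else Src.copy v

theorem eval_one (x : Rg) (s : Src Rg) (ρ : Rg → ℕ) :
    (fun v => (one x s v).eval ρ) = Function.update ρ x (s.eval ρ) := by
  funext v
  unfold one
  by_cases h : v = x
  · subst h; simp
  · simp [h, Src.eval]

theorem eval_two (x : Rg) (s : Src Rg) (y : Rg) (s' : Src Rg) (ρ : Rg → ℕ) (hxy : x ≠ y) :
    (fun v => (two x s y s' v).eval ρ) =
      Function.update (Function.update ρ x (s.eval ρ)) y (s'.eval ρ) := by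
  funext v
  unfold two
  by_cases h : v = x
  · subst h; simp [hxy]
  · by_cases h' : v = y
    · subst h'; simp [h]
    · simp [h, h', Src.eval]

theorem eval_copy (ρ : Rg → ℕ) : (fun v => (Src.copy v : Src Rg).eval ρ) = ρ := rfl

variable (M : DPDA S)

def initF : F S M := fun c _ _ =>
  ({ c with q := c.q0, A := c.A0, up := false, fin := false },
    fun v => if v = Rg.i then Src.copy Rg.i0 else if v = Rg.d then Src.zero
      else if v = Rg.z then Src.zero else Src.copy v)

def stepF : F S M := fun c le eq => match M.δ c.q c.A (le Rg.i) with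
  | Act.pop q' a => if eq Rg.d Rg.z = true then
      ({ c with q := q', fin := true, ans := some q', fc := false, fp := false },
        one Rg.i (adv a Rg.i))
    else ({ c with q := q', fc := false, fp := true },
        two Rg.i (adv a Rg.i) Rg.d (Src.pred Rg.d))
  | Act.repl q' A' a => ({ c with q := q', A := A', fc := false, fp := false },
        one Rg.i (adv a Rg.i))
  | Act.push q' B A' a => ({ c with cq := q', cB := B, cA := A', fc := true, fp := false },
        one Rg.ci (adv a Rg.i))

def kzF : F S M := fun c _ eq => ({ c with kz := eq Rg.k Rg.z }, Src.copy)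

def noneF : F S M := fun c _ _ => ({ c with got := none }, Src.copy)

def skipF : F S M := fun c _ _ => (c, Src.copy)

def enterG (dec : Bool) : Ctl M.Q M.Γ → Ctl M.Q M.Γ × (Rg → Src Rg) := fun c =>
  ({ c with q0 := c.cq, A0 := c.cB },
    two Rg.k (if dec then Src.pred Rg.k else Src.copy Rg.k) Rg.i0 (Src.copy Rg.ci))

def leaveG : Ctl M.Q M.Γ → Ctl M.Q M.Γ → Ctl M.Q M.Γ × (Rg → Src (Rg ⊕ Rg)) := fun c c' =>
  ({ c with got := c'.ans },
    fun v => if v = Rg.ci ∧ c'.ans.isSome = true then Src.copy (Sum.inr Rg.i)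
      else Src.copy (Sum.inl v))

def callC : Cmd S (Ctl M.Q M.Γ) Rg :=
  Cmd.seq (Cmd.act (kzF M)) (Cmd.ite (fun c => c.kz) (Cmd.act (noneF M))
    (Cmd.call (enterG M true) (leaveG M)))

def afterF : F S M := fun c _ _ => match c.got with
  | some q₂ => ({ c with q := q₂, A := c.cA }, one Rg.i (Src.copy Rg.ci))
  | none => if c.up = true then ({ c with fin := true, ans := none }, Src.copy)
      else ({ c with q := c.cq, A := c.cB }, two Rg.i (Src.copy Rg.ci) Rg.d (Src.succ Rg.d))

def rinitF : F S M := fun c _ _ =>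
  ({ c with rq := c.q0, rA := c.A0, rfin := false },
    two Rg.ri (Src.copy Rg.i0) Rg.rd Src.zero)

def rstepF : F S M := fun c le _ => match M.δ c.rq c.rA (le Rg.ri) with
  | Act.pop _ _ => ({ c with fc := false, rfin := true }, Src.copy)
  | Act.repl q' A' a => ({ c with rq := q', rA := A', fc := false }, one Rg.ri (adv a Rg.ri))
  | Act.push q' B A' a => ({ c with cq := q', cB := B, cA := A', fc := true },
        one Rg.ci (adv a Rg.ri))

def rafterF : F S M := fun c _ eq => match c.got with
  | some q₂ => ({ c with rq := q₂, rA := c.cA }, one Rg.ri (Src.copy Rg.ci))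
  | none => if eq Rg.rd Rg.d = true then ({ c with rA := c.cA, rfin := true }, Src.copy)
      else ({ c with rq := c.cq, rA := c.cB }, two Rg.ri (Src.copy Rg.ci) Rg.rd (Src.succ Rg.rd))

def afterPF : F S M := fun c _ _ => ({ c with A := c.rA, up := true }, Src.copy)

def rbodyC : Cmd S (Ctl M.Q M.Γ) Rg :=
  Cmd.seq (Cmd.act (rstepF M)) (Cmd.ite (fun c => c.fc)
    (Cmd.seq (callC M) (Cmd.act (rafterF M))) (Cmd.act (skipF M)))

def rloopC : Cmd S (Ctl M.Q M.Γ) Rg := Cmd.whl (fun c => !c.rfin) (rbodyC M)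

def iterC : Cmd S (Ctl M.Q M.Γ) Rg :=
  Cmd.seq (Cmd.act (stepF M)) (Cmd.ite (fun c => c.fc)
    (Cmd.seq (callC M) (Cmd.act (afterF M)))
    (Cmd.ite (fun c => c.fp)
      (Cmd.seq (Cmd.seq (Cmd.act (rinitF M)) (rloopC M)) (Cmd.act (afterPF M)))
      (Cmd.act (skipF M))))

def loopC : Cmd S (Ctl M.Q M.Γ) Rg := Cmd.whl (fun c => !c.fin) (iterC M)

/-- The body. -/
def bodyC : Cmd S (Ctl M.Q M.Γ) Rg := Cmd.seq (Cmd.act (initF M)) (loopC M)

def mainF : F S M := fun c _ _ => match c.got with
  | some q₂ => ({ c with fin := true, ans := some q₂ }, Src.copy)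
  | none => (c, one Rg.k (Src.succ Rg.k))

/-- The main command: try `k = 0, 1, 2, …` -/
def mainC : Cmd S (Ctl M.Q M.Γ) Rg :=
  Cmd.whl (fun c => !c.fin) (Cmd.seq (Cmd.call (enterG M false) (leaveG M)) (Cmd.act (mainF M)))

def incF : F S M := fun c _ _ => (c, one Rg.k (Src.succ Rg.k))

def incC : ℕ → Cmd S (Ctl M.Q M.Γ) Rg
  | 0 => Cmd.act (skipF M)
  | n + 1 => Cmd.seq (incC n) (Cmd.act (incF M))

def fixF : F S M := fun c _ _ => ({ c with ans := c.got }, Src.copy)

/-- The main command for a fixed `k`. -/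
def mainK (k : ℕ) : Cmd S (Ctl M.Q M.Γ) Rg :=
  Cmd.seq (incC M k) (Cmd.seq (Cmd.call (enterG M false) (leaveG M)) (Cmd.act (fixF M)))

def startC : Ctl M.Q M.Γ where
  q0 := M.start
  A0 := M.bottom
  q := M.start
  A := M.bottom
  up := false
  rq := M.start
  rA := M.bottom
  cq := M.start
  cB := M.bottom
  cA := M.bottom
  fc := false
  fp := false
  kz := false
  got := none
  fin := false
  rfin := false
  ans := none

def outC (c : Ctl M.Q M.Γ) : Bool := match c.ans with
  | some q => M.final q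
  | none => false

/-- The adaptive program. -/
def progA : Prog S where
  K := Ctl M.Q M.Γ
  V := Rg
  finK := by
    have := M.finQ
    have := M.finΓ
    infer_instance
  finV := inferInstance
  body := bodyC M
  main := mainC M
  init := startC M
  out := outC M

/-- The program for fixed `k`. -/
def progK (k : ℕ) : Prog S where
  K := Ctl M.Q M.Γ
  V := Rg
  finK := by
    have := M.finQ
    have := M.finΓ
    infer_instance
  finV := inferInstance
  body := bodyC M
  main := mainK M k
  init := startC M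
  out := outC M

end Pool.Agent.V7H64.SP
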