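import Pool.Agent.V7H64.SP.Steps

/-!
# The calls of the simulation
-/

set_option autoImplicit false

namespace Pool.Agent.V7H64.SP

open Function (update)

variable {S : Type} {M : DPDA S} {w : List S}

/-- specification of the body with parameter `k` -/
def Spec (M : DPDA S) (w : List S) (b k : ℕ) : Prop :=
  ∀ (q : M.Q) (A : M.Γ) (i : ℕ) (r : M.Q) (j σ t p : ℕ), M.Cell w q A i [] r j σ t p → i + t ≤ b →
  ∀ φ : Frame (Ctl M.Q M.Γ) Rg, φ.Bdd b → φ.ctl.q0 = q → φ.ctl.A0 = A → φ.reg Rg.k = k →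
    φ.reg Rg.i0 = i →
  ∃ ψ, Exec w (bodyC M) b k (bodyC M) φ ψ ∧ ψ.Bdd b ∧
    (σ ≤ k → ψ.ctl.ans = some r ∧ ψ.reg Rg.i = j) ∧ (k < σ → ψ.ctl.ans = none)

theorem leave_some (φ ψ : Frame (Ctl M.Q M.Γ) Rg) {r : M.Q} (h : ψ.ctl.ans = some r) :
    φ.leave ψ (leaveG M) =
      ⟨{ φ.ctl with got := some r }, update φ.reg Rg.ci (ψ.reg Rg.i)⟩ := by
  unfold Frame.leave leaveG
  simp only [h]
  congr 1
  funext v
  by_cases hv : v = Rg.ci
  · subst hv
    simp [Src.eval]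
  · simp [hv, Src.eval]

theorem leave_none (φ ψ : Frame (Ctl M.Q M.Γ) Rg) (h : ψ.ctl.ans = none) :
    φ.leave ψ (leaveG M) = ⟨{ φ.ctl with got := none }, φ.reg⟩ := by
  unfold Frame.leave leaveG
  simp only [h]
  congr 1
  funext v
  simp [Src.eval]

theorem enter_reg (φ : Frame (Ctl M.Q M.Γ) Rg) (dec : Bool) :
    φ.enter (enterG M dec) = ⟨{ φ.ctl with q0 := φ.ctl.cq, A0 := φ.ctl.cB },
      update (update φ.reg Rg.k (if dec then φ.reg Rg.k - 1 else φ.reg Rg.k)) Rg.i0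
        (φ.reg Rg.ci)⟩ := by
  unfold Frame.enter enterG
  simp only
  rw [eval_two _ _ _ _ _ (by decide)]
  cases dec <;> rfl

/-- a call of the body, and its result -/
theorem call_spec {b k : ℕ} {dec : Bool} (H : Spec M w b k) (φ : Frame (Ctl M.Q M.Γ) Rg)
    (hb : φ.Bdd b) (hk : (if dec then φ.reg Rg.k - 1 else φ.reg Rg.k) = k)
    {r : M.Q} {j σ t p : ℕ} (hc : M.Cell w φ.ctl.cq φ.ctl.cB (φ.reg Rg.ci) [] r j σ t p)
    (ht : φ.reg Rg.ci + t ≤ b) :
    Exec w (bodyC M) b (k + 1) (Cmd.call (enterG M dec) (leaveG M)) φ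
      ⟨{ φ.ctl with got := if σ ≤ k then some r else none },
        update φ.reg Rg.ci (if σ ≤ k then j else φ.reg Rg.ci)⟩ := by
  have hkb : (if dec then φ.reg Rg.k - 1 else φ.reg Rg.k) ≤ b := by
    have := hb Rg.k
    split_ifs <;> omega
  have hen : (φ.enter (enterG M dec)).Bdd b := by
    rw [enter_reg]
    refine Bdd.update (c := φ.ctl) (Bdd.update (c := φ.ctl) hb _ hkb) _ (hb _)
  obtain ⟨ψ, h1, h2, h3, h4⟩ := H _ _ _ _ _ _ _ _ hc ht (φ.enter (enterG M dec)) hen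
    (by rw [enter_reg]) (by rw [enter_reg]) (by rw [enter_reg]; simpa using hk)
    (by rw [enter_reg]; simp)
  by_cases hσ : σ ≤ k
  · obtain ⟨h5, h6⟩ := h3 hσ
    have e := leave_some φ ψ h5
    rw [if_pos hσ, if_pos hσ, ← h6, ← e]
    refine Exec.call k _ _ φ ψ hen h1 ?_
    rw [e]
    exact Bdd.update (c := φ.ctl) hb _ (h2 _)
  · have h5 := h4 (by omega)
    have e := leave_none φ ψ h5
    rw [if_neg hσ, if_neg hσ, Function.update_eq_self, ← e]
    refine Exec.call k _ _ φ ψ hen h1 ?_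
    rw [e]
    exact hb

theorem callC_spec {b k : ℕ} (IH : ∀ k', k = k' + 1 → Spec M w b k')
    (φ : Frame (Ctl M.Q M.Γ) Rg) (hb : φ.Bdd b) (hk : φ.reg Rg.k = k) (hz : φ.reg Rg.z = 0)
    {r : M.Q} {j σ t p : ℕ} (hc : M.Cell w φ.ctl.cq φ.ctl.cB (φ.reg Rg.ci) [] r j σ t p)
    (ht : φ.reg Rg.ci + t ≤ b) :
    Exec w (bodyC M) b k (callC M) φ
      ⟨{ φ.ctl with kz := decide (k = 0), got := if σ < k then some r else none },
        update φ.reg Rg.ci (if σ < k then j else φ.reg Rg.ci)⟩ := by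
  unfold callC
  refine Exec.seq _ _ _ _ _ _ (Exec.act _ _ _ ?_) ?_
  · rw [upd_kz]; exact hb
  · rw [upd_kz, hk, hz]
    rcases k with _ | k
    · refine Exec.iteT _ _ _ _ _ _ (by simp) ?_
      have := Exec.act (body := bodyC M) (b := b) 0 (noneF M)
        (⟨{ φ.ctl with kz := decide (0 = 0) }, φ.reg⟩ : Frame (Ctl M.Q M.Γ) Rg) (w := w)
        (by rw [upd_none]; exact hb)
      rw [upd_none] at this
      simpa using this
    · refine Exec.iteF _ _ _ _ _ _ (by simp) ?_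
      have := call_spec (b := b) (k := k) (dec := true) (IH k rfl)
        (⟨{ φ.ctl with kz := decide (k + 1 = 0) }, φ.reg⟩ : Frame (Ctl M.Q M.Γ) Rg) hb
        (by simp [hk]) hc ht
      simpa [Nat.lt_succ_iff] using this

end Pool.Agent.V7H64.SP
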