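import Pool.Agent.V7H64.SP.Defs

/-!
# Lemmas on Strahler numbers and on the cells of the stack
-/

set_option autoImplicit false

namespace Pool.Agent.V7H64.SP

theorem le_foldr {l : List ℕ} {x : ℕ} (h : x ∈ l) : x ≤ l.foldr max 0 := by
  induction l with
  | nil => simp at h
  | cons y l ih =>
    rcases List.mem_cons.1 h with rfl | h
    · simp
    · exact (ih h).trans (by simp)

theorem foldr_mem {l : List ℕ} (h : l ≠ []) : l.foldr max 0 ∈ l := by
  induction l with
  | nil => exact absurd rfl h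
  | cons y l ih =>
    by_cases hl : l = []
    · subst hl; simp
    · have := ih hl
      rcases le_total y (l.foldr max 0) with h' | h'
      · simp only [List.foldr_cons, max_eq_right h']
        exact List.mem_cons_of_mem _ this
      · simp only [List.foldr_cons, max_eq_left h']
        exact List.mem_cons_self

theorem foldr_le {l : List ℕ} {b : ℕ} (h : ∀ x ∈ l, x ≤ b) : l.foldr max 0 ≤ b := by
  induction l with
  | nil => simp
  | cons y l ih =>
    simp only [List.foldr_cons]
    exact max_le (h y List.mem_cons_self) (ih fun x hx => h x (List.mem_cons_of_mem _ hx))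

theorem foldr_le_strahler (l : List ℕ) : l.foldr max 0 ≤ strahler l := by
  unfold strahler
  split_ifs <;> omega

theorem le_strahler {l : List ℕ} {x : ℕ} (h : x ∈ l) : x ≤ strahler l :=
  (le_foldr h).trans (foldr_le_strahler l)

/-- all numbers are less than `k` -/
def Small (k : ℕ) (l : List ℕ) : Prop := ∀ x ∈ l, x < k

/-- `k` occurs exactly once, the other numbers are smaller -/
def Once (k : ℕ) (l : List ℕ) : Prop := (∀ x ∈ l, x ≤ k) ∧ l.count k = 1

theorem Small.strahler_le {k : ℕ} {l : List ℕ} (h : Small k l) : strahler l ≤ k := by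
  by_cases hl : l = []
  · subst hl; simp [strahler]
  · have h1 := h _ (foldr_mem hl)
    unfold strahler
    split_ifs <;> omega

theorem Once.strahler_le {k : ℕ} {l : List ℕ} (h : Once k l) : strahler l ≤ k := by
  have h1 : l.foldr max 0 ≤ k := foldr_le h.1
  unfold strahler
  split_ifs with hc
  · rcases h1.lt_or_eq with h2 | h2
    · omega
    · rw [h2] at hc
      have := h.2
      omega
  · exact h1

theorem Small.cons {k x : ℕ} {l : List ℕ} (h : Small k l) (hx : x < k) : Small k (x :: l) := by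
  intro y hy
  rcases List.mem_cons.1 hy with rfl | hy
  · exact hx
  · exact h y hy

theorem Small.nil (k : ℕ) : Small k [] := by intro y hy; simp at hy

theorem Small.once {k : ℕ} {l : List ℕ} (h : Small k l) : Once k (k :: l) := by
  refine ⟨?_, ?_⟩
  · intro y hy
    rcases List.mem_cons.1 hy with rfl | hy
    · exact le_rfl
    · exact (h y hy).le
  · have : l.count k = 0 := List.count_eq_zero.2 fun hk => (lt_irrefl k) (h k hk)
    simp [this]

theorem Once.cons {k x : ℕ} {l : List ℕ} (h : Once k l) (hx : x < k) : Once k (x :: l) := by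
  refine ⟨?_, ?_⟩
  · intro y hy
    rcases List.mem_cons.1 hy with rfl | hy
    · exact hx.le
    · exact h.1 y hy
  · rw [List.count_cons_of_ne (by omega)]
    exact h.2

theorem strahler_of {l : List ℕ} {m : ℕ} (h : l.foldr max 0 = m) :
    strahler l = if 2 ≤ l.count m then m + 1 else m := by
  subst h; rfl

theorem strahler_le_cons (x : ℕ) (l : List ℕ) : strahler l ≤ strahler (x :: l) := by
  obtain ⟨k, hk⟩ : ∃ k, l.foldr max 0 = k := ⟨_, rfl⟩
  rw [strahler_of hk]
  rcases lt_trichotomy x k with h | h | h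
  · have e : (x :: l).foldr max 0 = k := by simp [hk, h.le]
    rw [strahler_of e, List.count_cons_of_ne (by omega)]
  · have e : (x :: l).foldr max 0 = k := by simp [hk, h.le]
    rw [strahler_of e]
    have : l.count k ≤ (x :: l).count k := List.count_le_count_cons
    split_ifs <;> omega
  · have e : (x :: l).foldr max 0 = x := by simp [hk, h.le]
    rw [strahler_of e]
    split_ifs <;> omega

theorem Once.lt_strahler {k x : ℕ} {l : List ℕ} (h : Once k l) (hx : k ≤ x) :
    k < strahler (x :: l) := by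
  rcases hx.lt_or_eq with hx | rfl
  · exact hx.trans_le (le_strahler List.mem_cons_self)
  · have h1 : l.foldr max 0 ≤ k := foldr_le h.1
    have e : (k :: l).foldr max 0 = k := by simp [h1]
    rw [strahler_of e, List.count_cons_self, h.2]
    simp

/-- `2 ^ strahler l ≤ 1 + ∑ 2 ^ x`. -/
theorem pow_strahler (l : List ℕ) :
    2 ^ strahler l ≤ (if l = [] then 1 else 0) + (l.map (fun x => 2 ^ x)).sum := by
  by_cases hl : l = []
  · subst hl; simp [strahler]
  · have key : ∀ (m c : ℕ) (l : List ℕ), c ≤ l.count m → c * 2 ^ m ≤ (l.map (fun x => 2 ^ x)).sum := by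
      intro m c l
      induction l generalizing c with
      | nil => intro h; simp at h; subst h; simp
      | cons y l ih =>
        intro h
        simp only [List.map_cons, List.sum_cons]
        by_cases hy : y = m
        · subst hy
          rw [List.count_cons_self] at h
          rcases Nat.eq_zero_or_pos c with rfl | hc
          · simp
          · obtain ⟨c', rfl⟩ : ∃ c', c = c' + 1 := ⟨c - 1, by omega⟩
            have := ih c' (by omega)
            rw [add_mul]
            omega
        · rw [List.count_cons_of_ne hy] at h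
          exact (ih c h).trans (Nat.le_add_left _ _)
    rw [if_neg hl]
    unfold strahler
    split_ifs with hc
    · have := key _ _ _ hc
      rw [pow_succ]
      omega
    · have h1 : 1 ≤ l.count (l.foldr max 0) := List.one_le_count_iff.2 (foldr_mem hl)
      have := key _ _ _ h1
      omega

variable {S : Type} {M : DPDA S} {w : List S}

open DPDA

theorem cell_mono {q : M.Q} {A : M.Γ} {i : ℕ} {l : List ℕ} {r : M.Q} {j σ t p : ℕ}
    (h : M.Cell w q A i l r j σ t p) : strahler l ≤ σ := by
  induction h with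
  | pop => exact le_rfl
  | repl _ _ _ _ _ _ _ _ _ _ _ _ _ _ ih => exact ih
  | push _ _ _ _ _ _ _ _ _ _ _ _ _ _ _ _ _ _ _ _ _ ih1 ih2 =>
    exact (strahler_le_cons _ _).trans ih2

theorem cell_pos {q : M.Q} {A : M.Γ} {i : ℕ} {l : List ℕ} {r : M.Q} {j σ t p : ℕ}
    (h : M.Cell w q A i l r j σ t p) : j ≤ i + t ∧ 1 ≤ t ∧ i ≤ j ∧ p ≤ t := by
  have hb : ∀ a : Bool, a.toNat ≤ 1 := Bool.toNat_le
  induction h with
  | pop _ _ _ l _ a => have := hb a; split_ifs <;> omega
  | repl _ _ _ _ _ _ a _ _ _ _ _ _ _ ih => have := hb a; omega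
  | push _ _ _ _ _ _ _ a _ _ _ _ _ _ _ _ _ _ _ _ _ ih1 ih2 => have := hb a; omega

theorem cell_pow {q : M.Q} {A : M.Γ} {i : ℕ} {l : List ℕ} {r : M.Q} {j σ t p : ℕ}
    (h : M.Cell w q A i l r j σ t p) : 2 ^ σ ≤ p + (l.map (fun x => 2 ^ x)).sum := by
  induction h with
  | pop _ _ _ l => exact pow_strahler l
  | repl _ _ _ _ _ _ a _ _ _ _ _ _ _ ih => exact ih
  | push _ _ _ l _ _ _ a _ _ _ _ _ _ _ _ _ _ _ _ _ ih1 ih2 =>
    simp only [List.map_cons, List.sum_cons, List.map_nil, List.sum_nil] at ih1 ih2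
    omega

theorem cell_det {q : M.Q} {A : M.Γ} {i : ℕ} {l : List ℕ} {r : M.Q} {j σ t p : ℕ}
    (h : M.Cell w q A i l r j σ t p) : ∀ {r' : M.Q} {j' σ' t' p' : ℕ},
    M.Cell w q A i l r' j' σ' t' p' → r = r' ∧ j = j' ∧ σ = σ' ∧ t = t' ∧ p = p' := by
  induction h with
  | pop q A i l r a h =>
    intro r' j' σ' t' p' h'
    cases h' with
    | pop _ _ _ _ _ a' h2 =>
      rw [h] at h2
      injection h2 with e1 e2
      subst e1 e2
      exact ⟨rfl, rfl, rfl, rfl, rfl⟩
    | repl _ _ _ _ _ _ _ _ _ _ _ _ h2 => rw [h] at h2; cases h2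
    | push _ _ _ _ _ _ _ _ _ _ _ _ _ _ _ _ _ _ h2 => rw [h] at h2; cases h2
  | repl q A i l q' A' a r j σ t p h _ ih =>
    intro r' j' σ' t' p' h'
    cases h' with
    | pop _ _ _ _ _ a' h2 => rw [h] at h2; cases h2
    | repl _ _ _ _ _ _ _ _ _ _ _ _ h2 h3 =>
      rw [h] at h2
      injection h2 with e1 e2 e3
      subst e1 e2 e3
      obtain ⟨rfl, rfl, rfl, rfl, rfl⟩ := ih h3
      exact ⟨rfl, rfl, rfl, rfl, rfl⟩
    | push _ _ _ _ _ _ _ _ _ _ _ _ _ _ _ _ _ _ h2 => rw [h] at h2; cases h2
  | push q A i l q' B A' a r₁ j₁ σ₁ t₁ p₁ r j σ t p h _ _ ih1 ih2 =>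
    intro r' j' σ' t' p' h'
    cases h' with
    | pop _ _ _ _ _ a' h2 => rw [h] at h2; cases h2
    | repl _ _ _ _ _ _ _ _ _ _ _ _ h2 => rw [h] at h2; cases h2
    | push _ _ _ _ _ _ _ _ _ _ _ _ _ _ _ _ _ _ h2 h3 h4 =>
      rw [h] at h2
      injection h2 with e1 e2 e3 e4
      subst e1 e2 e3 e4
      obtain ⟨rfl, rfl, rfl, rfl, rfl⟩ := ih1 h3
      obtain ⟨rfl, rfl, rfl, rfl, rfl⟩ := ih2 h4
      exact ⟨rfl, rfl, rfl, rfl, rfl⟩

/-- If the stack becomes empty within `T` steps then the top cell is removed before. -/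
theorem exists_cell (T : ℕ) : ∀ (q : M.Q) (A : M.Γ) (i : ℕ) (β : List M.Γ) (l : List ℕ),
    ((M.step w)^[T] ⟨q, i, A :: β⟩).st = [] →
    ∃ r j σ t p, t ≤ T ∧ M.Cell w q A i l r j σ t p ∧
      (M.step w)^[t] ⟨q, i, A :: β⟩ = ⟨r, j, β⟩ := by
  induction T using Nat.strong_induction_on with
  | _ T IH =>
    intro q A i β l h
    rcases T with _ | T
    · simp at h
    · rw [Function.iterate_succ_apply] at h
      rcases hδ : M.δ q A w[i]? with ⟨q', a⟩ | ⟨q', A', a⟩ | ⟨q', B, A', a⟩
      · refine ⟨q', i + a.toNat, strahler l, 1, _, by omega, Cell.pop q A i l q' a hδ, ?_⟩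
        simp [DPDA.step, hδ]
      · have e : M.step w ⟨q, i, A :: β⟩ = ⟨q', i + a.toNat, A' :: β⟩ := by
          simp [DPDA.step, hδ]
        rw [e] at h
        obtain ⟨r, j, σ, t, p, ht, hc, hs⟩ := IH T (by omega) q' A' (i + a.toNat) β l h
        refine ⟨r, j, σ, t + 1, p, by omega, Cell.repl q A i l q' A' a r j σ t p hδ hc, ?_⟩
        rw [Function.iterate_succ_apply, e, hs]
      · have e : M.step w ⟨q, i, A :: β⟩ = ⟨q', i + a.toNat, B :: A' :: β⟩ := by
          simp [DPDA.step, hδ]
        rw [e] at h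
        obtain ⟨r₁, j₁, σ₁, t₁, p₁, ht₁, hc₁, hs₁⟩ :=
          IH T (by omega) q' B (i + a.toNat) (A' :: β) [] h
        have h2 : ((M.step w)^[T - t₁] ⟨r₁, j₁, A' :: β⟩).st = [] := by
          rw [← hs₁, ← Function.iterate_add_apply, Nat.sub_add_cancel ht₁]
          exact h
        have := cell_pos hc₁
        obtain ⟨r, j, σ, t, p, ht, hc, hs⟩ :=
          IH (T - t₁) (by omega) r₁ A' j₁ β (σ₁ :: l) h2
        refine ⟨r, j, σ, t₁ + t + 1, p₁ + p, by omega,
          Cell.push q A i l q' B A' a r₁ j₁ σ₁ t₁ p₁ r j σ t p hδ hc₁ hc, ?_⟩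
        rw [Function.iterate_succ_apply, e, add_comm t₁ t, Function.iterate_add_apply, hs₁, hs]

theorem step_nil (q : M.Q) (i n : ℕ) : (M.step w)^[n] ⟨q, i, []⟩ = ⟨q, i, []⟩ := by
  induction n with
  | zero => rfl
  | succ n ih => rw [Function.iterate_succ_apply]; exact ih

/-- The whole run. -/
theorem exists_run {T : ℕ} (h : M.HaltsIn w T) :
    ∃ r j σ t p, t ≤ T ∧ M.Cell w M.start M.bottom 0 [] r j σ t p ∧
      (M.Accepts w ↔ M.final r = true) := by
  obtain ⟨r, j, σ, t, p, ht, hc, hs⟩ := exists_cell T M.start M.bottom 0 [] [] h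
  refine ⟨r, j, σ, t, p, ht, hc, ?_⟩
  have hs' : (M.step w)^[t] M.init = ⟨r, j, []⟩ := hs
  constructor
  · rintro ⟨T', h1, h2⟩
    -- compare the two halting times
    have e : ((M.step w)^[T'] M.init).q = r := by
      rcases le_total t T' with hle | hle
      · obtain ⟨m, rfl⟩ := Nat.exists_eq_add_of_le hle
        rw [add_comm, Function.iterate_add_apply, hs', step_nil]
      · obtain ⟨m, rfl⟩ := Nat.exists_eq_add_of_le hle
        rcases hcf : (M.step w)^[T'] M.init with ⟨q', i', st'⟩
        rw [hcf] at h1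
        simp only at h1
        subst h1
        have : (M.step w)^[T' + m] M.init = ⟨q', i', []⟩ := by
          rw [add_comm, Function.iterate_add_apply, hcf, step_nil]
        rw [this] at hs'
        injection hs'
    rw [e] at h2
    exact h2
  · intro hf
    exact ⟨t, by rw [hs'], by rw [hs']; exact hf⟩

end Pool.Agent.V7H64.SP
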