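import Mathlib

/-!
# Deterministic pushdown automata, Strahler numbers of their runs, and programs for small space

Definitions for the space complexity of deterministic context-free languages.
-/

set_option autoImplicit false

namespace Pool.Agent.V7H64.SP

/-! ## Pushdown automata -/

/-- What a pushdown automaton does in one step.  `a` tells whether the input head advances.
* `pop q a`: the top symbol is removed;
* `repl q A a`: the top symbol is replaced by `A`;
* `push q B A a`: the top symbol is replaced by `A`, and `B` is put on top of it.
The new state is `q`. -/
inductive Act (Q Γ : Type) : Type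
  | pop (q : Q) (a : Bool) : Act Q Γ
  | repl (q : Q) (A : Γ) (a : Bool) : Act Q Γ
  | push (q : Q) (B A : Γ) (a : Bool) : Act Q Γ

/-- A one-way deterministic pushdown automaton with finitely many states and stack symbols, over
the letters `S`.  A step depends on the state, on the top symbol and on the letter under the
input head (`none` to the right of the input, where the head sees an end marker); it may leave
the input head where it is.  The automaton stops when its stack is empty, and then it accepts if
its state is an accepting one. -/
structure DPDA (S : Type) where
  Q : Type
  Γ : Type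
  finQ : Finite Q
  finΓ : Finite Γ
  start : Q
  bottom : Γ
  final : Q → Bool
  δ : Q → Γ → Option S → Act Q Γ

variable {S : Type}

namespace DPDA

/-- A configuration: the state, the position of the input head, the stack (top symbol first). -/
structure Conf (M : DPDA S) where
  q : M.Q
  i : ℕ
  st : List M.Γ

/-- One step on the input `w`; a configuration with empty stack does not change any more. -/
def step (M : DPDA S) (w : List S) : M.Conf → M.Conf
  | ⟨q, i, []⟩ => ⟨q, i, []⟩
  | ⟨q, i, A :: β⟩ => match M.δ q A w[i]? with
    | Act.pop q' a => ⟨q', i + a.toNat, β⟩
    | Act.repl q' A' a => ⟨q', i + a.toNat, A' :: β⟩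
    | Act.push q' B A' a => ⟨q', i + a.toNat, B :: A' :: β⟩

/-- The initial configuration. -/
def init (M : DPDA S) : M.Conf := ⟨M.start, 0, [M.bottom]⟩

/-- The automaton stops on the input `w` after at most `T` steps. -/
def HaltsIn (M : DPDA S) (w : List S) (T : ℕ) : Prop :=
  ((M.step w)^[T] M.init).st = []

/-- The automaton accepts the input `w`. -/
def Accepts (M : DPDA S) (w : List S) : Prop :=
  ∃ T, ((M.step w)^[T] M.init).st = [] ∧ M.final ((M.step w)^[T] M.init).q = true

end DPDA

/-- The Strahler number (Horton-Strahler number) of a node of a rooted tree whose children have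
the Strahler numbers in the list: the largest of them, plus one if it occurs at least twice;
and `0` if there are no children. -/
def strahler (l : List ℕ) : ℕ :=
  if 2 ≤ l.count (l.foldr max 0) then l.foldr max 0 + 1 else l.foldr max 0

namespace DPDA

/-- `M.Cell w q A i l r j σ t p`: if `M` is in the state `q` at the position `i` of the input `w`
with the symbol `A` in the top cell of its stack, then it removes this cell after exactly `t`
steps, and it is then in the state `r` at the position `j`; the number `σ` is the Strahler number
of the cell, provided that `l` is the list of the Strahler numbers of the cells which have been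
put directly on top of this cell, and removed again, before; and `p` is the number of peaks of
the stack from now on until the cell is removed, that is, of the cells (possibly this one) which
are removed without any other cell having been put on top of them.

The cells of the stack form a tree: the children of a cell are the cells which are put directly
on top of it during its lifetime; the peaks are the leaves. -/
inductive Cell (M : DPDA S) (w : List S) :
    M.Q → M.Γ → ℕ → List ℕ → M.Q → ℕ → ℕ → ℕ → ℕ → Prop
  | pop (q : M.Q) (A : M.Γ) (i : ℕ) (l : List ℕ) (r : M.Q) (a : Bool)
      (h : M.δ q A w[i]? = Act.pop r a) :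
      Cell M w q A i l r (i + a.toNat) (strahler l) 1 (if l = [] then 1 else 0)
  | repl (q : M.Q) (A : M.Γ) (i : ℕ) (l : List ℕ) (q' : M.Q) (A' : M.Γ) (a : Bool)
      (r : M.Q) (j σ t p : ℕ)
      (h : M.δ q A w[i]? = Act.repl q' A' a)
      (h1 : Cell M w q' A' (i + a.toNat) l r j σ t p) :
      Cell M w q A i l r j σ (t + 1) p
  | push (q : M.Q) (A : M.Γ) (i : ℕ) (l : List ℕ) (q' : M.Q) (B A' : M.Γ) (a : Bool)
      (r₁ : M.Q) (j₁ σ₁ t₁ p₁ : ℕ) (r : M.Q) (j σ t p : ℕ)
      (h : M.δ q A w[i]? = Act.push q' B A' a)
      (h1 : Cell M w q' B (i + a.toNat) [] r₁ j₁ σ₁ t₁ p₁)
      (h2 : Cell M w r₁ A' j₁ (σ₁ :: l) r j σ t p) :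
      Cell M w q A i l r j σ (t₁ + t + 1) (p₁ + p)

/-- The run of `M` on the input `w` ends with the empty stack; the tree of all its stack cells
has the Strahler number `σ` and `p` leaves, so that the height of the stack has `p` peaks. -/
def Run (M : DPDA S) (w : List S) (σ p : ℕ) : Prop :=
  ∃ r j t, M.Cell w M.start M.bottom 0 [] r j σ t p

/-- The Strahler number of the run on the input `w`. -/
noncomputable def number (M : DPDA S) (w : List S) : ℕ := sInf {σ | ∃ p, M.Run w σ p}

/-- The number of peaks of the run on the input `w`. -/
noncomputable def peaks (M : DPDA S) (w : List S) : ℕ := sInf {p | ∃ σ, M.Run w σ p}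

end DPDA

/-! ## Programs

A frame consists of a control state in a finite set and finitely many registers, which contain
natural numbers.  The registers also serve as read-only heads on the input. -/

/-- A frame. -/
structure Frame (K V : Type) where
  ctl : K
  reg : V → ℕ

/-- Where a register gets its new value from. -/
inductive Src (V : Type) : Type
  | zero : Src V
  | copy (v : V) : Src V
  | succ (v : V) : Src V
  | pred (v : V) : Src V

/-- The new value of a register. -/
def Src.eval {V : Type} (ρ : V → ℕ) : Src V → ℕ
  | zero => 0
  | copy v => ρ v
  | succ v => ρ v + 1
  | pred v => ρ v - 1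

/-- Commands, for inputs over the letters `S`, control states `K` and registers `V`.
* `act f`: one step; the new control state and the new contents of the registers depend on the
  control state, on the letters of the input at the positions given by the registers (`none` to
  the right of the input), and on which registers have the same contents;
* `seq`: one command after the other;
* `ite t p p'`: `p` or `p'`, depending on a test of the control state;
* `whl t p`: repeat `p` as long as the control state passes the test;
* `call enter leave`: open a new frame, whose contents are determined by `enter`, execute the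
  body of the program there, close the new frame, and change the old frame according to `leave`,
  which also sees the final control state of the new frame and may copy from its registers. -/
inductive Cmd (S K V : Type) : Type
  | act (f : K → (V → Option S) → (V → V → Bool) → K × (V → Src V)) : Cmd S K V
  | seq (p p' : Cmd S K V) : Cmd S K V
  | ite (t : K → Bool) (p p' : Cmd S K V) : Cmd S K V
  | whl (t : K → Bool) (p : Cmd S K V) : Cmd S K V
  | call (enter : K → K × (V → Src V)) (leave : K → K → K × (V → Src (V ⊕ V))) : Cmd S K V

/-- The frame after one step given by `f`. -/
def Frame.upd {K V : Type} (w : List S) (φ : Frame K V)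
    (f : K → (V → Option S) → (V → V → Bool) → K × (V → Src V)) : Frame K V where
  ctl := (f φ.ctl (fun v => w[φ.reg v]?) (fun v v' => decide (φ.reg v = φ.reg v'))).1
  reg v := ((f φ.ctl (fun v => w[φ.reg v]?)
    (fun v v' => decide (φ.reg v = φ.reg v'))).2 v).eval φ.reg

/-- The new frame opened by a call. -/
def Frame.enter {K V : Type} (φ : Frame K V) (g : K → K × (V → Src V)) : Frame K V where
  ctl := (g φ.ctl).1
  reg v := ((g φ.ctl).2 v).eval φ.reg

/-- The frame of the caller after a call whose last frame is `ψ`. -/
def Frame.leave {K V : Type} (φ ψ : Frame K V) (g : K → K → K × (V → Src (V ⊕ V))) :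
    Frame K V where
  ctl := (g φ.ctl ψ.ctl).1
  reg v := ((g φ.ctl ψ.ctl).2 v).eval (Sum.elim φ.reg ψ.reg)

/-- All registers contain numbers `≤ b`. -/
def Frame.Bdd {K V : Type} (b : ℕ) (φ : Frame K V) : Prop := ∀ v, φ.reg v ≤ b

/-- `Exec w body b d p φ ψ`: on the input `w`, the command `p` started in the frame `φ` stops, and
then the frame is `ψ`; on the way all registers contain numbers `≤ b`, and never more than `d`
further frames are open at the same time.  `body` is the body of the program, which is executed
by the calls. -/
inductive Exec {K V : Type} (w : List S) (body : Cmd S K V) (b : ℕ) :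
    ℕ → Cmd S K V → Frame K V → Frame K V → Prop
  | act (d : ℕ) (f : K → (V → Option S) → (V → V → Bool) → K × (V → Src V)) (φ : Frame K V)
      (h : (φ.upd w f).Bdd b) : Exec w body b d (Cmd.act f) φ (φ.upd w f)
  | seq (d : ℕ) (p p' : Cmd S K V) (φ ψ χ : Frame K V)
      (h : Exec w body b d p φ ψ) (h' : Exec w body b d p' ψ χ) :
      Exec w body b d (Cmd.seq p p') φ χ
  | iteT (d : ℕ) (t : K → Bool) (p p' : Cmd S K V) (φ ψ : Frame K V)
      (ht : t φ.ctl = true) (h : Exec w body b d p φ ψ) : Exec w body b d (Cmd.ite t p p') φ ψ
  | iteF (d : ℕ) (t : K → Bool) (p p' : Cmd S K V) (φ ψ : Frame K V)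
      (ht : t φ.ctl = false) (h : Exec w body b d p' φ ψ) : Exec w body b d (Cmd.ite t p p') φ ψ
  | whlT (d : ℕ) (t : K → Bool) (p : Cmd S K V) (φ ψ χ : Frame K V)
      (ht : t φ.ctl = true) (h : Exec w body b d p φ ψ)
      (h' : Exec w body b d (Cmd.whl t p) ψ χ) : Exec w body b d (Cmd.whl t p) φ χ
  | whlF (d : ℕ) (t : K → Bool) (p : Cmd S K V) (φ : Frame K V)
      (ht : t φ.ctl = false) : Exec w body b d (Cmd.whl t p) φ φ
  | call (d : ℕ) (g : K → K × (V → Src V)) (g' : K → K → K × (V → Src (V ⊕ V)))
      (φ ψ : Frame K V) (h1 : (φ.enter g).Bdd b)
      (h : Exec w body b d body (φ.enter g) ψ) (h2 : (φ.leave ψ g').Bdd b) :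
      Exec w body b (d + 1) (Cmd.call g g') φ (φ.leave ψ g')

/-- A program for inputs over the letters `S`: finite sets of control states and of registers,
the body (executed by calls), the main command, the initial control state (the registers
contain `0` in the beginning), and the answer. -/
structure Prog (S : Type) where
  K : Type
  V : Type
  finK : Finite K
  finV : Finite V
  body : Cmd S K V
  main : Cmd S K V
  init : K
  out : K → Bool

/-- On the input `w` the program `P` stops with the answer `ans`, with registers containing
numbers `≤ b` and with at most `d` frames open at the same time. -/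
def Prog.Answers (P : Prog S) (w : List S) (b d : ℕ) (ans : Bool) : Prop :=
  ∃ ψ : Frame P.K P.V, Exec w P.body b d P.main ⟨P.init, fun _ => 0⟩ ψ ∧
    P.out ψ.ctl = ans

/-- The language `L` is decided by a program whose registers contain numbers which are
polynomially bounded in the length of the input, with at most `s w` frames besides the first one
on the input `w`. -/
def DecidedWith (s : List S → ℕ) (L : Set (List S)) : Prop :=
  ∃ (P : Prog S) (e : ℕ), ∀ w : List S, ∃ ans : Bool,
    P.Answers w ((w.length + 2) ^ e) (s w) ans ∧ (ans = true ↔ w ∈ L)

/-- `L` is decided in logarithmic space: a bounded number of frames, each with finitely many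
registers that contain polynomially bounded numbers. -/
def InLogSpace (L : Set (List S)) : Prop := ∃ d : ℕ, DecidedWith (fun _ => d) L

end Pool.Agent.V7H64.SP
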