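import Pool.Agent.V7H64.SP.MainLoop

/-!
# The programs
-/

set_option autoImplicit false

namespace Pool.Agent.V7H64.SP

open Function (update)

variable {S : Type} {M : DPDA S} {w : List S}

theorem Frame.Bdd.mono {K V : Type} {b b' : ℕ} (hb : b ≤ b') {φ : Frame K V} (h : φ.Bdd b) :
    φ.Bdd b' := fun v => (h v).trans hb

theorem Exec.mono {K V : Type} {body : Cmd S K V} {b b' d : ℕ} (hb : b ≤ b') {p : Cmd S K V}
    {φ ψ : Frame K V} (h : Exec w body b d p φ ψ) : ∀ d', d ≤ d' → Exec w body b' d' p φ ψ := by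
  induction h with
  | act d f φ h => exact fun d' _ => Exec.act d' f φ (h.mono hb)
  | seq d p p' φ ψ χ _ _ ih1 ih2 =>
    exact fun d' hd => Exec.seq d' p p' φ ψ χ (ih1 d' hd) (ih2 d' hd)
  | iteT d t p p' φ ψ ht _ ih => exact fun d' hd => Exec.iteT d' t p p' φ ψ ht (ih d' hd)
  | iteF d t p p' φ ψ ht _ ih => exact fun d' hd => Exec.iteF d' t p p' φ ψ ht (ih d' hd)
  | whlT d t p φ ψ χ ht _ _ ih1 ih2 =>
    exact fun d' hd => Exec.whlT d' t p φ ψ χ ht (ih1 d' hd) (ih2 d' hd)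
  | whlF d t p φ ht => exact fun d' _ => Exec.whlF d' t p φ ht
  | call d g g' φ ψ h1 _ h2 ih =>
    intro d' hd
    obtain ⟨e, rfl⟩ : ∃ e, d' = e + 1 := ⟨d' - 1, by omega⟩
    exact Exec.call e g g' φ ψ (h1.mono hb) (ih e (by omega)) (h2.mono hb)

theorem main_spec {b : ℕ} {r : M.Q} {j σ t p : ℕ}
    (hc : M.Cell w M.start M.bottom 0 [] r j σ t p) (ht : t ≤ b) (n : ℕ) :
    ∀ (k : ℕ) (φ : Frame (Ctl M.Q M.Γ) Rg), k + n = σ → φ.Bdd b → φ.reg Rg.k = k →
      φ.reg Rg.ci = 0 → φ.ctl.cq = M.start → φ.ctl.cB = M.bottom → φ.ctl.fin = false →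
      ∃ χ, Exec w (bodyC M) b (σ + 1) (mainC M) φ χ ∧ χ.ctl.ans = some r := by
  have hpos := cell_pos hc
  have hpow := cell_pow hc
  have hσ : σ < b := by
    have : σ < 2 ^ σ := Nat.lt_two_pow_self
    simp only [List.map_nil, List.sum_nil] at hpow
    omega
  induction n with
  | zero =>
    intro k φ hk hb hrk hci hcq hcB hfin
    have hcall := call_spec (w := w) (b := b) (k := k) (dec := false) (body_spec b k) φ hb
      (by simpa using hrk) (r := r) (j := j) (σ := σ) (t := t) (p := p)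
      (by rw [hcq, hcB, hci]; exact hc) (by omega)
    rw [if_pos (by omega), if_pos (by omega)] at hcall
    have e : (⟨{ φ.ctl with got := some r }, update φ.reg Rg.ci j⟩ :
        Frame (Ctl M.Q M.Γ) Rg).upd w (mainF M) =
        ⟨{ φ.ctl with got := some r, fin := true, ans := some r }, update φ.reg Rg.ci j⟩ := rfl
    have hb2 : ((⟨{ φ.ctl with got := some r }, update φ.reg Rg.ci j⟩ :
        Frame (Ctl M.Q M.Γ) Rg).upd w (mainF M)).Bdd b := by
      rw [e]
      exact Bdd.update (c := φ.ctl) hb _ (by omega)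
    refine ⟨_, Exec.whlT _ _ _ _ _ _ (by simp [hfin]) (Exec.seq _ _ _ _ _ _
      (hcall.mono le_rfl _ (by omega)) (Exec.act _ _ _ hb2)) (Exec.whlF _ _ _ _ (by rw [e]; rfl)), ?_⟩
    rw [e]
  | succ n ih =>
    intro k φ hk hb hrk hci hcq hcB hfin
    have hcall := call_spec (w := w) (b := b) (k := k) (dec := false) (body_spec b k) φ hb
      (by simpa using hrk) (r := r) (j := j) (σ := σ) (t := t) (p := p)
      (by rw [hcq, hcB, hci]; exact hc) (by omega)
    rw [if_neg (by omega), if_neg (by omega), Function.update_eq_self] at hcall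
    have e : (⟨{ φ.ctl with got := none }, φ.reg⟩ :
        Frame (Ctl M.Q M.Γ) Rg).upd w (mainF M) =
        ⟨{ φ.ctl with got := none }, update φ.reg Rg.k (φ.reg Rg.k + 1)⟩ := by
      rw [upd_eq _ (mainF M) (c := { φ.ctl with got := none })
        (s := one Rg.k (Src.succ Rg.k))]
      · rw [eval_one]; rfl
      · rfl
    have hb2 : ((⟨{ φ.ctl with got := none }, φ.reg⟩ :
        Frame (Ctl M.Q M.Γ) Rg).upd w (mainF M)).Bdd b := by
      rw [e]
      exact Bdd.update (c := φ.ctl) hb _ (by omega)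
    obtain ⟨χ, h1, h2⟩ := ih (k + 1) _ (by omega) hb2 (by rw [e]; simp [hrk])
      (by rw [e]; simpa using hci) (by rw [e]; exact hcq) (by rw [e]; exact hcB)
      (by rw [e]; exact hfin)
    exact ⟨χ, Exec.whlT _ _ _ _ _ _ (by simp [hfin]) (Exec.seq _ _ _ _ _ _
      (hcall.mono le_rfl _ (by omega)) (Exec.act _ _ _ hb2)) h1, h2⟩

/-- The adaptive program. -/
theorem progA_spec {b : ℕ} {r : M.Q} {j σ t p : ℕ}
    (hc : M.Cell w M.start M.bottom 0 [] r j σ t p) (ht : t ≤ b) :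
    (progA M).Answers w b (σ + 1) (M.final r) := by
  obtain ⟨χ, h1, h2⟩ := main_spec hc ht σ 0
    (⟨startC M, fun _ => 0⟩ : Frame (Ctl M.Q M.Γ) Rg) (by omega) (fun _ => Nat.zero_le _) rfl rfl
    rfl rfl rfl
  refine ⟨χ, h1, ?_⟩
  show outC M χ.ctl = M.final r
  unfold outC
  rw [h2]

theorem inc_spec {b d : ℕ} (n : ℕ) (hn : n ≤ b) (φ : Frame (Ctl M.Q M.Γ) Rg) (hb : φ.Bdd b)
    (hk : φ.reg Rg.k = 0) :
    Exec w (bodyC M) b d (incC M n) φ ⟨φ.ctl, update φ.reg Rg.k n⟩ := by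
  induction n with
  | zero =>
    have := Exec.act (w := w) (body := bodyC M) (b := b) d (skipF M) φ hb
    have e : φ.upd w (skipF M) = ⟨φ.ctl, update φ.reg Rg.k 0⟩ := by
      rw [upd_skip, ← hk, Function.update_eq_self]
    rw [e] at this
    exact this
  | succ n ih =>
    have e : (⟨φ.ctl, update φ.reg Rg.k n⟩ : Frame (Ctl M.Q M.Γ) Rg).upd w (incF M) =
        ⟨φ.ctl, update φ.reg Rg.k (n + 1)⟩ := by
      rw [upd_eq (⟨φ.ctl, update φ.reg Rg.k n⟩ : Frame (Ctl M.Q M.Γ) Rg) (incF M) (c := φ.ctl)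
        (s := one Rg.k (Src.succ Rg.k)) rfl, eval_one]
      simp [Src.eval]
    refine Exec.seq _ _ _ _ _ _ (ih (by omega)) ?_
    rw [← e]
    refine Exec.act _ _ _ ?_
    rw [e]
    exact Bdd.update (c := φ.ctl) hb _ hn

/-- The program for fixed `k`. -/
theorem progK_spec {b k : ℕ} {r : M.Q} {j σ t p : ℕ}
    (hc : M.Cell w M.start M.bottom 0 [] r j σ t p) (ht : t ≤ b) (hk : k ≤ b) :
    (progK M k).Answers w b (k + 1) (decide (σ ≤ k) && M.final r) := by
  have hinc := inc_spec (w := w) (b := b) (d := k + 1) k hk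
    (⟨startC M, fun _ => 0⟩ : Frame (Ctl M.Q M.Γ) Rg) (fun _ => Nat.zero_le _) rfl
  have hb1 : (⟨startC M, update (fun _ => 0) Rg.k k⟩ : Frame (Ctl M.Q M.Γ) Rg).Bdd b :=
    Bdd.update (c := startC M) (fun _ => Nat.zero_le _) _ hk
  have hpos := cell_pos hc
  have hcall := call_spec (w := w) (b := b) (k := k) (dec := false) (body_spec b k)
    (⟨startC M, update (fun _ => 0) Rg.k k⟩ : Frame (Ctl M.Q M.Γ) Rg) hb1
    (by simp) (r := r) (j := j) (σ := σ) (t := t) (p := p) (by simpa [startC] using hc)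
    (by simpa using ht)
  refine ⟨_, Exec.seq _ _ _ _ _ _ hinc (Exec.seq _ _ _ _ _ _ hcall (Exec.act _ (fixF M) _ ?_)), ?_⟩
  · intro v
    show update (update (fun _ => 0) Rg.k k) Rg.ci _ v ≤ b
    refine Bdd.update (c := startC M) (c' := startC M) hb1 Rg.ci ?_ v
    split_ifs
    · omega
    · simp
  · show outC M _ = _
    by_cases hσ : σ ≤ k
    · simp [outC, Frame.upd, fixF, hσ]
    · simp [outC, Frame.upd, fixF, hσ]

end Pool.Agent.V7H64.SP
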