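import Pool.Agent.V7H64.SP.Resim

/-!
# The main loop of the simulation
-/

set_option autoImplicit false

namespace Pool.Agent.V7H64.SP

open Function (update)
open Relation (ReflTransGen)

variable {S : Type} {M : DPDA S} {w : List S}

/-- the frame `φ` represents the situation in the main loop -/
structure Rep (M : DPDA S) (b k : ℕ) (q0 : M.Q) (A0 : M.Γ) (i0 : ℕ)
    (φ : Frame (Ctl M.Q M.Γ) Rg) (q : M.Q) (A : M.Γ) (up : Bool) (d i : ℕ) : Prop where
  bdd : φ.Bdd b
  hk : φ.reg Rg.k = k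
  hz : φ.reg Rg.z = 0
  hq0 : φ.ctl.q0 = q0
  hA0 : φ.ctl.A0 = A0
  hi0 : φ.reg Rg.i0 = i0
  hq : φ.ctl.q = q
  hA : φ.ctl.A = A
  hup : φ.ctl.up = up
  hd : φ.reg Rg.d = d
  hi : φ.reg Rg.i = i
  hfin : φ.ctl.fin = false

/-- the frame after the call in the main loop -/
def icall (φ : Frame (Ctl M.Q M.Γ) Rg) (k : ℕ) (q' : M.Q) (B A' : M.Γ) (o : Option M.Q) (x : ℕ) :
    Frame (Ctl M.Q M.Γ) Rg :=
  ⟨{ φ.ctl with cq := q', cB := B, cA := A', fc := true, fp := false, kz := decide (k = 0),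
                got := o }, update φ.reg Rg.ci x⟩

theorem iter_push {b k : ℕ} (IH : ∀ k', k = k' + 1 → Spec M w b k')
    (φ : Frame (Ctl M.Q M.Γ) Rg) (hb : φ.Bdd b) (hk : φ.reg Rg.k = k) (hz : φ.reg Rg.z = 0)
    {q' : M.Q} {B A' : M.Γ} {a : Bool} {r₁ : M.Q} {j₁ σ₁ t₁ p₁ : ℕ}
    (h : M.δ φ.ctl.q φ.ctl.A w[φ.reg Rg.i]? = Act.push q' B A' a)
    (h1 : M.Cell w q' B (φ.reg Rg.i + a.toNat) [] r₁ j₁ σ₁ t₁ p₁)
    (hb1 : φ.reg Rg.i + a.toNat + t₁ ≤ b)
    (hb2 : ((icall φ k q' B A' (if σ₁ < k then some r₁ else none)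
      (if σ₁ < k then j₁ else φ.reg Rg.i + a.toNat)).upd w (afterF M)).Bdd b) :
    Exec w (bodyC M) b k (iterC M) φ
      ((icall φ k q' B A' (if σ₁ < k then some r₁ else none)
        (if σ₁ < k then j₁ else φ.reg Rg.i + a.toNat)).upd w (afterF M)) := by
  have e := upd_step_push (w := w) φ h
  have hb3 : (φ.upd w (stepF M)).Bdd b := by
    rw [e]
    exact Bdd.update (c := φ.ctl) hb _ (by omega)
  refine Exec.seq _ _ _ _ _ _ (Exec.act _ _ _ hb3) ?_
  refine Exec.iteT _ _ _ _ _ _ (by rw [e]) ?_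
  have hcall := callC_spec IH (φ.upd w (stepF M)) hb3 (by rw [e]; simpa using hk)
    (by rw [e]; simpa using hz) (r := r₁) (j := j₁) (σ := σ₁) (t := t₁) (p := p₁)
    (by rw [e]; simpa using h1) (by rw [e]; simpa using hb1)
  refine Exec.seq _ _ _ _ _ _ hcall ?_
  have e2 : (⟨{ (φ.upd w (stepF M)).ctl with
        kz := decide (k = 0), got := if σ₁ < k then some r₁ else none },
      update (φ.upd w (stepF M)).reg Rg.ci
        (if σ₁ < k then j₁ else (φ.upd w (stepF M)).reg Rg.ci)⟩ :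
        Frame (Ctl M.Q M.Γ) Rg) =
      icall φ k q' B A' (if σ₁ < k then some r₁ else none)
        (if σ₁ < k then j₁ else φ.reg Rg.i + a.toNat) := by
    rw [e]
    simp [icall]
  rw [e2]
  exact Exec.act _ _ _ hb2

theorem iter_repl {b k : ℕ} (φ : Frame (Ctl M.Q M.Γ) Rg) (hb : φ.Bdd b)
    {q' : M.Q} {A' : M.Γ} {a : Bool}
    (h : M.δ φ.ctl.q φ.ctl.A w[φ.reg Rg.i]? = Act.repl q' A' a)
    (hb1 : φ.reg Rg.i + a.toNat ≤ b) :
    Exec w (bodyC M) b k (iterC M) φ (φ.upd w (stepF M)) := by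
  have e := upd_step_repl (w := w) φ h
  have hb3 : (φ.upd w (stepF M)).Bdd b := by
    rw [e]
    exact Bdd.update (c := φ.ctl) hb _ hb1
  refine Exec.seq _ _ _ _ _ _ (Exec.act _ _ _ hb3) ?_
  refine Exec.iteF _ _ _ _ _ _ (by rw [e]) ?_
  refine Exec.iteF _ _ _ _ _ _ (by rw [e]) ?_
  exact Exec.act _ (skipF M) (φ.upd w (stepF M)) hb3

theorem iter_pop0 {b k : ℕ} (φ : Frame (Ctl M.Q M.Γ) Rg) (hb : φ.Bdd b)
    {q' : M.Q} {a : Bool} (h : M.δ φ.ctl.q φ.ctl.A w[φ.reg Rg.i]? = Act.pop q' a)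
    (hd : φ.reg Rg.d = φ.reg Rg.z) (hb1 : φ.reg Rg.i + a.toNat ≤ b) :
    Exec w (bodyC M) b k (iterC M) φ (φ.upd w (stepF M)) ∧ (φ.upd w (stepF M)).Bdd b := by
  have e := upd_step_pop0 (w := w) φ h hd
  have hb3 : (φ.upd w (stepF M)).Bdd b := by
    rw [e]
    exact Bdd.update (c := φ.ctl) hb _ hb1
  refine ⟨?_, hb3⟩
  refine Exec.seq _ _ _ _ _ _ (Exec.act _ _ _ hb3) ?_
  refine Exec.iteF _ _ _ _ _ _ (by rw [e]) ?_
  refine Exec.iteF _ _ _ _ _ _ (by rw [e]) ?_
  exact Exec.act _ (skipF M) (φ.upd w (stepF M)) hb3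

theorem iter_pop1 {b k : ℕ} (IH : ∀ k', k = k' + 1 → Spec M w b k')
    {q0 : M.Q} {A0 : M.Γ} {i0 : ℕ} {φ : Frame (Ctl M.Q M.Γ) Rg} {q'' : M.Q} {A'' : M.Γ} {u : Bool}
    {d i'' : ℕ} (R : Rep M b k q0 A0 i0 φ q'' A'' u (d + 1) i'')
    {r₁ : M.Q} {a : Bool} (h : M.δ q'' A'' w[i'']? = Act.pop r₁ a) (hj : i'' + a.toNat ≤ b)
    {q : M.Q} {A : M.Γ} {i : ℕ} {A' : M.Γ} (hH : HeavyAt M w b k q A i A')
    (hp : ReflTransGen (DStep M w b k) (q0, A0, i0, 0) (q, A, i, d)) :
    ∃ φ', Exec w (bodyC M) b k (iterC M) φ φ' ∧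
      Rep M b k q0 A0 i0 φ' r₁ A' true d (i'' + a.toNat) := by
  have hdb : d + 1 ≤ b := by rw [← R.hd]; exact R.bdd _
  have hk := R.hk
  have hz := R.hz
  have hd1 := R.hd
  have hfin := R.hfin
  have hi0b : i0 ≤ b := by rw [← R.hi0]; exact R.bdd _
  obtain ⟨hb, -, -, hq0, hA0, hi0, rfl, rfl, -, -, rfl, -⟩ := R
  have e := upd_step_pop1 (w := w) φ h (by rw [hd1, hz]; omega)
  have hb1 : (φ.upd w (stepF M)).Bdd b := by
    rw [e]
    exact Bdd.update (c := φ.ctl) (Bdd.update (c := φ.ctl) hb _ hj) _ (by omega)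
  have e2 := upd_rinit (w := w) (φ.upd w (stepF M))
  have hb2 : ((φ.upd w (stepF M)).upd w (rinitF M)).Bdd b := by
    rw [e2]
    refine Bdd.update (c := φ.ctl) (Bdd.update (c := φ.ctl) hb1 _ (hb1 _)) _ (by omega)
  obtain ⟨χ, h1, h2, h3, h4⟩ := rloop_spec IH hH (by omega : d ≤ b) hp
    ((φ.upd w (stepF M)).upd w (rinitF M)) hb2
    (by rw [e2, e]; simpa using hk) (by rw [e2, e]; simpa using hz) (by rw [e2])
    (by rw [e2, e]; simpa using hq0) (by rw [e2, e]; simpa using hA0)
    (by rw [e2, e]; simpa using hi0) (by rw [e2]; simp) (by rw [e2, e]; simp; omega)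
  refine ⟨χ.upd w (afterPF M), ?_, ?_⟩
  · refine Exec.seq _ _ _ _ _ _ (Exec.act _ _ _ hb1) ?_
    refine Exec.iteF _ _ _ _ _ _ (by rw [e]) ?_
    refine Exec.iteT _ _ _ _ _ _ (by rw [e]) ?_
    refine Exec.seq _ _ _ _ _ _ (Exec.seq _ _ _ _ _ _ (Exec.act _ _ _ hb2) h1) ?_
    exact Exec.act _ _ _ (by rw [upd_afterP]; exact h2)
  · rw [upd_afterP]
    constructor
    · exact h2
    · show χ.reg Rg.k = k
      rw [h3.k, e2, e]; simpa using hk
    · show χ.reg Rg.z = 0
      rw [h3.z, e2, e]; simpa using hz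
    · show χ.ctl.q0 = q0
      rw [h3.q0, e2, e]; simpa using hq0
    · show χ.ctl.A0 = A0
      rw [h3.A0, e2, e]; simpa using hA0
    · show χ.reg Rg.i0 = i0
      rw [h3.i0, e2, e]; simpa using hi0
    · show χ.ctl.q = r₁
      rw [h3.q, e2, e]
    · exact h4
    · rfl
    · show χ.reg Rg.d = d
      rw [h3.d, e2, e]; simp; omega
    · show χ.reg Rg.i = _
      rw [h3.i, e2, e]; simp
    · show χ.ctl.fin = false
      rw [h3.fin, e2, e]; simpa using hfin

theorem loop_spec {b k : ℕ} (IH : ∀ k', k = k' + 1 → Spec M w b k')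
    (q0 : M.Q) (A0 : M.Γ) (i0 : ℕ)
    {q : M.Q} {A : M.Γ} {i : ℕ} {l : List ℕ} {r : M.Q} {j σ t p : ℕ}
    (hc : M.Cell w q A i l r j σ t p) :
    ∀ (φ : Frame (Ctl M.Q M.Γ) Rg) (up : Bool) (d : ℕ), Rep M b k q0 A0 i0 φ q A up d i →
      i + t ≤ b → d + t ≤ b →
      ((up = false ∧ Small k l ∧
        ReflTransGen (DStep M w b k) (q0, A0, i0, 0) (q, A, i, d)) ∨ (up = true ∧ Once k l)) →
      (σ ≤ k → ∃ (φ' : Frame (Ctl M.Q M.Γ) Rg) (q' : M.Q) (A' : M.Γ) (i' : ℕ) (u a : Bool),
        (∀ χ, Exec w (bodyC M) b k (loopC M) φ' χ → Exec w (bodyC M) b k (loopC M) φ χ) ∧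
        Rep M b k q0 A0 i0 φ' q' A' u d i' ∧ M.δ q' A' w[i']? = Act.pop r a ∧
        j = i' + a.toNat) ∧
      (k < σ → ∃ χ, Exec w (bodyC M) b k (loopC M) φ χ ∧ χ.Bdd b ∧ χ.ctl.ans = none) := by
  have ha1 : ∀ a : Bool, a.toNat ≤ 1 := Bool.toNat_le
  induction hc with
  | pop q A i l r a h =>
    intro φ up d R hi hd hcase
    have hle : strahler l ≤ k := by
      rcases hcase with ⟨_, h1, _⟩ | ⟨_, h1⟩
      · exact h1.strahler_le
      · exact h1.strahler_le
    exact ⟨fun _ => ⟨φ, q, A, i, up, a, fun χ hχ => hχ, R, h, rfl⟩, fun hlt => absurd hlt (by omega)⟩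
  | repl q A i l q' A' a r j σ t p h h1 ih =>
    intro φ up d R hi hd hcase
    have ha := ha1 a
    have hpos := cell_pos h1
    have hib : i + a.toNat ≤ b := by omega
    obtain ⟨hb, hk, hz, hq0, hA0, hi0, rfl, rfl, hup, hdd, rfl, hfin⟩ := R
    have e := upd_step_repl (w := w) φ h
    have hx := iter_repl (k := k) φ hb h hib
    have R' : Rep M b k q0 A0 i0 (φ.upd w (stepF M)) q' A' up d (φ.reg Rg.i + a.toNat) := by
      rw [e]
      constructor
      · exact Bdd.update (c := φ.ctl) hb _ hib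
      · simpa using hk
      · simpa using hz
      · exact hq0
      · exact hA0
      · simpa using hi0
      · rfl
      · rfl
      · exact hup
      · simpa using hdd
      · simp
      · exact hfin
    have hred : ∀ χ, Exec w (bodyC M) b k (loopC M) (φ.upd w (stepF M)) χ →
        Exec w (bodyC M) b k (loopC M) φ χ := fun χ hχ =>
      Exec.whlT _ _ _ _ _ _ (by simp [hfin]) hx hχ
    obtain ⟨c1, c2⟩ := ih _ up d R' (by omega) (by omega) (by
      rcases hcase with ⟨hu, h2, h3⟩ | h2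
      · exact Or.inl ⟨hu, h2, h3.tail (DStep.repl _ _ _ _ _ _ _ h hib)⟩
      · exact Or.inr h2)
    refine ⟨fun hσ => ?_, fun hσ => ?_⟩
    · obtain ⟨φ', q₁, A₁, i', u, a', h2, h3, h4, h5⟩ := c1 hσ
      exact ⟨φ', q₁, A₁, i', u, a', fun χ hχ => hred χ (h2 χ hχ), h3, h4, h5⟩
    · obtain ⟨χ, h2, h3⟩ := c2 hσ
      exact ⟨χ, hred χ h2, h3⟩
  | push q A i l q' B A' a r₁ j₁ σ₁ t₁ p₁ r j σ t p h h1 h2 ih1 ih2 =>
    intro φ up d R hi hd hcase
    have ha := ha1 a
    have hpos1 := cell_pos h1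
    have hpos2 := cell_pos h2
    have hmono := cell_mono h2
    have R0 := R
    obtain ⟨hb, hk, hz, hq0, hA0, hi0, rfl, rfl, hup, hdd, rfl, hfin⟩ := R
    have hb1 : φ.reg Rg.i + a.toNat + t₁ ≤ b := by omega
    by_cases hσ1 : σ₁ < k
    · -- a light cell
      have e := upd_after_some (w := w) (icall φ k q' B A' (if σ₁ < k then some r₁ else none)
        (if σ₁ < k then j₁ else φ.reg Rg.i + a.toNat)) (q₂ := r₁) (by simp [icall, hσ1])
      have hb2 : ((icall φ k q' B A' (if σ₁ < k then some r₁ else none)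
          (if σ₁ < k then j₁ else φ.reg Rg.i + a.toNat)).upd w (afterF M)).Bdd b := by
        rw [e]
        simp only [icall, if_pos hσ1]
        refine Bdd.update (c := φ.ctl) (Bdd.update (c := φ.ctl) hb _ (by omega)) _ ?_
        simp; omega
      have hx := iter_push IH φ hb hk hz h h1 hb1 hb2
      have R' : Rep M b k q0 A0 i0 ((icall φ k q' B A' (if σ₁ < k then some r₁ else none)
          (if σ₁ < k then j₁ else φ.reg Rg.i + a.toNat)).upd w (afterF M)) r₁ A' up d j₁ := by
        have hb2' := hb2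
        rw [e] at hb2' ⊢
        constructor
        · exact hb2'
        · simpa [icall] using hk
        · simpa [icall] using hz
        · simpa [icall] using hq0
        · simpa [icall] using hA0
        · simpa [icall] using hi0
        · rfl
        · simp [icall]
        · simpa [icall] using hup
        · simpa [icall] using hdd
        · simp [icall, hσ1]
        · simpa [icall] using hfin
      have hred : ∀ χ, Exec w (bodyC M) b k (loopC M)
          ((icall φ k q' B A' (if σ₁ < k then some r₁ else none)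
          (if σ₁ < k then j₁ else φ.reg Rg.i + a.toNat)).upd w (afterF M)) χ →
          Exec w (bodyC M) b k (loopC M) φ χ := fun χ hχ =>
        Exec.whlT _ _ _ _ _ _ (by simp [hfin]) hx hχ
      obtain ⟨c1, c2⟩ := ih2 _ up d R' (by omega) (by omega) (by
        rcases hcase with ⟨hu, h3, h4⟩ | ⟨hu, h3⟩
        · exact Or.inl ⟨hu, h3.cons hσ1, h4.tail (DStep.light _ _ _ _ _ _ _ _ _ _ _ _ _ h h1 hb1 hσ1)⟩
        · exact Or.inr ⟨hu, h3.cons hσ1⟩)
      refine ⟨fun hσ => ?_, fun hσ => ?_⟩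
      · obtain ⟨φ', q₁, A₁, i', u, a', h2, h3, h4, h5⟩ := c1 hσ
        exact ⟨φ', q₁, A₁, i', u, a', fun χ hχ => hred χ (h2 χ hχ), h3, h4, h5⟩
      · obtain ⟨χ, h2, h3⟩ := c2 hσ
        exact ⟨χ, hred χ h2, h3⟩
    · -- a heavy cell
      rcases hcase with ⟨rfl, hS, hP⟩ | ⟨rfl, hO⟩
      · -- the first one on this level
        have e := upd_after_none_down (w := w) (icall φ k q' B A'
          (if σ₁ < k then some r₁ else none)
          (if σ₁ < k then j₁ else φ.reg Rg.i + a.toNat)) (by simp [icall, hσ1])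
          (by simpa [icall] using hup)
        have hb2 : ((icall φ k q' B A' (if σ₁ < k then some r₁ else none)
            (if σ₁ < k then j₁ else φ.reg Rg.i + a.toNat)).upd w (afterF M)).Bdd b := by
          rw [e]
          simp only [icall, if_neg hσ1]
          refine Bdd.update (c := φ.ctl) (Bdd.update (c := φ.ctl)
            (Bdd.update (c := φ.ctl) hb _ (by omega)) _ ?_) _ ?_
          · simp; omega
          · simp [hdd]; omega
        have hx := iter_push IH φ hb hk hz h h1 hb1 hb2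
        have R' : Rep M b k q0 A0 i0 ((icall φ k q' B A' (if σ₁ < k then some r₁ else none)
            (if σ₁ < k then j₁ else φ.reg Rg.i + a.toNat)).upd w (afterF M)) q' B false (d + 1)
            (φ.reg Rg.i + a.toNat) := by
          have hb2' := hb2
          rw [e] at hb2' ⊢
          constructor
          · exact hb2'
          · simpa [icall] using hk
          · simpa [icall] using hz
          · simpa [icall] using hq0
          · simpa [icall] using hA0
          · simpa [icall] using hi0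
          · simp [icall]
          · simp [icall]
          · simpa [icall] using hup
          · simp [icall, hdd]
          · simp [icall, hσ1]
          · simpa [icall] using hfin
        have hred : ∀ χ, Exec w (bodyC M) b k (loopC M)
            ((icall φ k q' B A' (if σ₁ < k then some r₁ else none)
            (if σ₁ < k then j₁ else φ.reg Rg.i + a.toNat)).upd w (afterF M)) χ →
            Exec w (bodyC M) b k (loopC M) φ χ := fun χ hχ =>
          Exec.whlT _ _ _ _ _ _ (by simp [hfin]) hx hχ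
        obtain ⟨c1, c2⟩ := ih1 _ false (d + 1) R' (by omega) (by omega)
          (Or.inl ⟨rfl, Small.nil k,
            hP.tail (DStep.heavy _ _ _ _ _ _ _ _ _ _ _ _ _ h h1 hb1 (not_lt.1 hσ1))⟩)
        rcases (not_lt.1 hσ1).lt_or_eq with hlt | heq
        · -- the heavy cell has a number larger than `k`
          have hbig : k < σ := hlt.trans_le ((le_strahler List.mem_cons_self).trans hmono)
          refine ⟨fun hσ => absurd hσ (by omega), fun _ => ?_⟩
          obtain ⟨χ, h3, h4⟩ := c2 hlt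
          exact ⟨χ, hred χ h3, h4⟩
        · -- the number of the heavy cell is `k`
          obtain ⟨φ', q₂, A₂, i', u, a', h3, R2, h4, h5⟩ := c1 (by omega)
          obtain ⟨φ6, h6, R6⟩ := iter_pop1 IH R2 h4 (by omega)
            ⟨q', B, a, r₁, j₁, σ₁, t₁, p₁, h, h1, hb1, not_lt.1 hσ1⟩ hP
          rw [← h5] at R6
          have hred2 : ∀ χ, Exec w (bodyC M) b k (loopC M) φ6 χ →
              Exec w (bodyC M) b k (loopC M) φ χ := fun χ hχ =>
            hred χ (h3 χ (Exec.whlT _ _ _ _ _ _ (by simp [R2.hfin]) h6 hχ))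
          obtain ⟨d1, d2⟩ := ih2 _ true d R6 (by omega) (by omega)
            (Or.inr ⟨rfl, by rw [← heq]; exact hS.once⟩)
          refine ⟨fun hσ => ?_, fun hσ => ?_⟩
          · obtain ⟨φ'', q₁, A₁, i'', u', a'', h2, h3, h4, h5⟩ := d1 hσ
            exact ⟨φ'', q₁, A₁, i'', u', a'', fun χ hχ => hred2 χ (h2 χ hχ), h3, h4, h5⟩
          · obtain ⟨χ, h2, h3⟩ := d2 hσ
            exact ⟨χ, hred2 χ h2, h3⟩
      · -- the second one on this level
        have e := upd_after_none_up (w := w) (icall φ k q' B A'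
          (if σ₁ < k then some r₁ else none)
          (if σ₁ < k then j₁ else φ.reg Rg.i + a.toNat)) (by simp [icall, hσ1])
          (by simpa [icall] using hup)
        have hb2 : ((icall φ k q' B A' (if σ₁ < k then some r₁ else none)
            (if σ₁ < k then j₁ else φ.reg Rg.i + a.toNat)).upd w (afterF M)).Bdd b := by
          rw [e]
          simp only [icall, if_neg hσ1]
          exact Bdd.update (c := φ.ctl) hb _ (by omega)
        have hx := iter_push IH φ hb hk hz h h1 hb1 hb2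
        have hbig : k < σ := (hO.lt_strahler (not_lt.1 hσ1)).trans_le hmono
        refine ⟨fun hσ => absurd hσ (by omega), fun _ => ?_⟩
        refine ⟨_, Exec.whlT _ _ _ _ _ _ (by simp [hfin]) hx
          (Exec.whlF _ _ _ _ (by simp [e])), hb2, by rw [e]⟩

theorem body_spec (b : ℕ) : ∀ k, Spec M w b k := by
  intro k
  induction k with
  | zero => exact body_spec_aux b 0 (fun k' h => absurd h (by omega))
  | succ k ih => exact body_spec_aux b (k + 1) (fun k' h => by
      obtain rfl : k' = k := by omega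
      exact ih)
where
  body_spec_aux (b k : ℕ) (IH : ∀ k', k = k' + 1 → Spec M w b k') : Spec M w b k := by
    intro q A i r j σ t p hc hit φ hb hq hA hk hi
    have hpos := cell_pos hc
    have e : φ.upd w (initF M) = ⟨{ φ.ctl with q := φ.ctl.q0, A := φ.ctl.A0, up := false,
                                               fin := false },
        update (update (update φ.reg Rg.i (φ.reg Rg.i0)) Rg.d 0) Rg.z 0⟩ := by
      rw [upd_eq φ (initF M) (c := { φ.ctl with q := φ.ctl.q0, A := φ.ctl.A0, up := false,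
                                                fin := false })
        (s := fun v => if v = Rg.i then Src.copy Rg.i0 else if v = Rg.d then Src.zero
          else if v = Rg.z then Src.zero else Src.copy v)]
      · congr 1
        funext v
        cases v <;> simp [Src.eval]
      · rfl
    have hb1 : (φ.upd w (initF M)).Bdd b := by
      rw [e]
      exact Bdd.update (c := φ.ctl) (Bdd.update (c := φ.ctl)
        (Bdd.update (c := φ.ctl) hb _ (hb _)) _ (by omega)) _ (by omega)
    have R : Rep M b k q A i (φ.upd w (initF M)) q A false 0 i := by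
      have hb1' := hb1
      rw [e] at hb1' ⊢
      constructor
      · exact hb1'
      · simpa using hk
      · simp
      · exact hq
      · exact hA
      · simpa using hi
      · exact hq
      · exact hA
      · rfl
      · simp
      · simpa using hi
      · rfl
    obtain ⟨c1, c2⟩ := loop_spec IH q A i hc _ false 0 R hit (by omega)
      (Or.inl ⟨rfl, Small.nil k, ReflTransGen.refl⟩)
    by_cases hσ : σ ≤ k
    · obtain ⟨φ', q', A', i', u, a, h1, R', h2, h3⟩ := c1 hσ
      have h2' : M.δ φ'.ctl.q φ'.ctl.A w[φ'.reg Rg.i]? = Act.pop r a := by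
        rw [R'.hq, R'.hA, R'.hi]; exact h2
      have hdz : φ'.reg Rg.d = φ'.reg Rg.z := by rw [R'.hd, R'.hz]
      obtain ⟨h4, h5⟩ := iter_pop0 (k := k) φ' R'.bdd h2' hdz (by rw [R'.hi]; omega)
      have e2 := upd_step_pop0 (w := w) φ' h2' hdz
      refine ⟨φ'.upd w (stepF M), ?_, h5, fun _ => ⟨by rw [e2], ?_⟩, fun h => absurd h (by omega)⟩
      · refine Exec.seq _ _ _ _ _ _ (Exec.act _ _ _ hb1) (h1 _ ?_)
        exact Exec.whlT _ _ _ _ _ _ (by simp [R'.hfin]) h4 (Exec.whlF _ _ _ _ (by simp [e2]))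
      · rw [e2]
        simp [R'.hi, h3]
    · obtain ⟨χ, h1, h2, h3⟩ := c2 (by omega)
      exact ⟨χ, Exec.seq _ _ _ _ _ _ (Exec.act _ _ _ hb1) h1, h2, fun h => absurd h hσ,
        fun _ => h3⟩

end Pool.Agent.V7H64.SP
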