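import Pool.Agent.V7H64.SP.Call

/-!
# The resimulation
-/

set_option autoImplicit false

namespace Pool.Agent.V7H64.SP

open Function (update)
open Relation (ReflTransGen)

variable {S : Type} {M : DPDA S} {w : List S}

/-- one step along the path of heavy cells; the last component is the depth -/
inductive DStep (M : DPDA S) (w : List S) (b k : ℕ) :
    M.Q × M.Γ × ℕ × ℕ → M.Q × M.Γ × ℕ × ℕ → Prop
  | repl (q : M.Q) (A : M.Γ) (i e : ℕ) (q' : M.Q) (A' : M.Γ) (a : Bool)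
      (h : M.δ q A w[i]? = Act.repl q' A' a) (hb : i + a.toNat ≤ b) :
      DStep M w b k (q, A, i, e) (q', A', i + a.toNat, e)
  | light (q : M.Q) (A : M.Γ) (i e : ℕ) (q' : M.Q) (B A' : M.Γ) (a : Bool)
      (r₁ : M.Q) (j₁ σ₁ t₁ p₁ : ℕ)
      (h : M.δ q A w[i]? = Act.push q' B A' a)
      (h1 : M.Cell w q' B (i + a.toNat) [] r₁ j₁ σ₁ t₁ p₁) (hb : i + a.toNat + t₁ ≤ b)
      (hσ : σ₁ < k) : DStep M w b k (q, A, i, e) (r₁, A', j₁, e)
  | heavy (q : M.Q) (A : M.Γ) (i e : ℕ) (q' : M.Q) (B A' : M.Γ) (a : Bool)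
      (r₁ : M.Q) (j₁ σ₁ t₁ p₁ : ℕ)
      (h : M.δ q A w[i]? = Act.push q' B A' a)
      (h1 : M.Cell w q' B (i + a.toNat) [] r₁ j₁ σ₁ t₁ p₁) (hb : i + a.toNat + t₁ ≤ b)
      (hσ : k ≤ σ₁) : DStep M w b k (q, A, i, e) (q', B, i + a.toNat, e + 1)

theorem path_mono {b k : ℕ} {x y : M.Q × M.Γ × ℕ × ℕ} (h : ReflTransGen (DStep M w b k) x y) :
    x.2.2.2 ≤ y.2.2.2 := by
  induction h with
  | refl => exact le_rfl
  | tail _ h ih =>
    cases h with
    | repl => exact ih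
    | light => exact ih
    | heavy => exact ih.trans (Nat.le_succ _)

/-- at `(q, A, i)` there is a heavy cell put on top, which leaves `A'` below it -/
def HeavyAt (M : DPDA S) (w : List S) (b k : ℕ) (q : M.Q) (A : M.Γ) (i : ℕ) (A' : M.Γ) : Prop :=
  ∃ (q' : M.Q) (B : M.Γ) (a : Bool) (r₁ : M.Q) (j₁ σ₁ t₁ p₁ : ℕ),
    M.δ q A w[i]? = Act.push q' B A' a ∧ M.Cell w q' B (i + a.toNat) [] r₁ j₁ σ₁ t₁ p₁ ∧
    i + a.toNat + t₁ ≤ b ∧ k ≤ σ₁

/-- the data of the main loop are not changed -/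
structure Same (φ χ : Frame (Ctl M.Q M.Γ) Rg) : Prop where
  q0 : χ.ctl.q0 = φ.ctl.q0
  A0 : χ.ctl.A0 = φ.ctl.A0
  q : χ.ctl.q = φ.ctl.q
  fin : χ.ctl.fin = φ.ctl.fin
  k : χ.reg Rg.k = φ.reg Rg.k
  z : χ.reg Rg.z = φ.reg Rg.z
  i0 : χ.reg Rg.i0 = φ.reg Rg.i0
  d : χ.reg Rg.d = φ.reg Rg.d
  i : χ.reg Rg.i = φ.reg Rg.i

theorem Same.trans {φ χ ψ : Frame (Ctl M.Q M.Γ) Rg} (h : Same φ χ) (h' : Same χ ψ) :
    Same φ ψ :=
  ⟨h'.q0.trans h.q0, h'.A0.trans h.A0, h'.q.trans h.q, h'.fin.trans h.fin, h'.k.trans h.k,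
    h'.z.trans h.z, h'.i0.trans h.i0, h'.d.trans h.d, h'.i.trans h.i⟩

/-- the frame after the call in the resimulation -/
def rcall (φ : Frame (Ctl M.Q M.Γ) Rg) (k : ℕ) (q' : M.Q) (B A' : M.Γ) (o : Option M.Q) (x : ℕ) :
    Frame (Ctl M.Q M.Γ) Rg :=
  ⟨{ φ.ctl with cq := q', cB := B, cA := A', fc := true, kz := decide (k = 0), got := o },
    update φ.reg Rg.ci x⟩

theorem rbody_push {b k : ℕ} (IH : ∀ k', k = k' + 1 → Spec M w b k')
    (φ : Frame (Ctl M.Q M.Γ) Rg) (hb : φ.Bdd b) (hk : φ.reg Rg.k = k) (hz : φ.reg Rg.z = 0)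
    {q' : M.Q} {B A' : M.Γ} {a : Bool} {r₁ : M.Q} {j₁ σ₁ t₁ p₁ : ℕ}
    (h : M.δ φ.ctl.rq φ.ctl.rA w[φ.reg Rg.ri]? = Act.push q' B A' a)
    (h1 : M.Cell w q' B (φ.reg Rg.ri + a.toNat) [] r₁ j₁ σ₁ t₁ p₁)
    (hb1 : φ.reg Rg.ri + a.toNat + t₁ ≤ b)
    (hb2 : ((rcall φ k q' B A' (if σ₁ < k then some r₁ else none)
      (if σ₁ < k then j₁ else φ.reg Rg.ri + a.toNat)).upd w (rafterF M)).Bdd b) :
    Exec w (bodyC M) b k (rbodyC M) φ
      ((rcall φ k q' B A' (if σ₁ < k then some r₁ else none)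
        (if σ₁ < k then j₁ else φ.reg Rg.ri + a.toNat)).upd w (rafterF M)) := by
  have e := upd_rstep_push (w := w) φ h
  have hb3 : (φ.upd w (rstepF M)).Bdd b := by
    rw [e]
    exact Bdd.update (c := φ.ctl) hb _ (by omega)
  refine Exec.seq _ _ _ _ _ _ (Exec.act _ _ _ hb3) ?_
  refine Exec.iteT _ _ _ _ _ _ (by rw [e]) ?_
  have hcall := callC_spec IH (φ.upd w (rstepF M)) hb3 (by rw [e]; simpa using hk)
    (by rw [e]; simpa using hz) (r := r₁) (j := j₁) (σ := σ₁) (t := t₁) (p := p₁)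
    (by rw [e]; simpa using h1) (by rw [e]; simpa using hb1)
  refine Exec.seq _ _ _ _ _ _ hcall ?_
  have e2 : (⟨{ (φ.upd w (rstepF M)).ctl with
        kz := decide (k = 0), got := if σ₁ < k then some r₁ else none },
      update (φ.upd w (rstepF M)).reg Rg.ci
        (if σ₁ < k then j₁ else (φ.upd w (rstepF M)).reg Rg.ci)⟩ :
        Frame (Ctl M.Q M.Γ) Rg) =
      rcall φ k q' B A' (if σ₁ < k then some r₁ else none)
        (if σ₁ < k then j₁ else φ.reg Rg.ri + a.toNat) := by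
    rw [e]
    simp [rcall]
  rw [e2]
  exact Exec.act _ _ _ hb2

theorem rloop_spec {b k : ℕ} (IH : ∀ k', k = k' + 1 → Spec M w b k')
    {q : M.Q} {A : M.Γ} {i d : ℕ} {A' : M.Γ} (hH : HeavyAt M w b k q A i A') (hd : d ≤ b)
    {x : M.Q × M.Γ × ℕ × ℕ} (hp : ReflTransGen (DStep M w b k) x (q, A, i, d)) :
    ∀ φ : Frame (Ctl M.Q M.Γ) Rg, φ.Bdd b → φ.reg Rg.k = k → φ.reg Rg.z = 0 →
      φ.ctl.rfin = false → φ.ctl.rq = x.1 → φ.ctl.rA = x.2.1 → φ.reg Rg.ri = x.2.2.1 →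
      φ.reg Rg.rd = x.2.2.2 → φ.reg Rg.d = d →
      ∃ χ, Exec w (bodyC M) b k (rloopC M) φ χ ∧ χ.Bdd b ∧ Same φ χ ∧ χ.ctl.rA = A' := by
  induction hp using ReflTransGen.head_induction_on with
  | refl =>
    intro φ hb hk hz hfin hq hA hri hrd hdd
    obtain ⟨q', B, a, r₁, j₁, σ₁, t₁, p₁, h, h1, hb1, hσ⟩ := hH
    have hσ' : ¬ σ₁ < k := not_lt.2 hσ
    simp only at hq hA hri hrd
    subst hq hA hri
    have e2 := upd_rafter_stop (w := w) (rcall φ k q' B A' (if σ₁ < k then some r₁ else none)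
        (if σ₁ < k then j₁ else φ.reg Rg.ri + a.toNat)) (by simp [rcall, hσ'])
        (by simp [rcall, hrd, hdd])
    have hb2 : ((rcall φ k q' B A' (if σ₁ < k then some r₁ else none)
        (if σ₁ < k then j₁ else φ.reg Rg.ri + a.toNat)).upd w (rafterF M)).Bdd b := by
      rw [e2]
      simp only [rcall, if_neg hσ']
      exact Bdd.update (c := φ.ctl) hb _ (by omega)
    have hx := rbody_push IH φ hb hk hz h h1 hb1 hb2
    refine ⟨_, Exec.whlT _ _ _ _ _ _ (by simp [hfin]) hx (Exec.whlF _ _ _ _ (by simp [e2])),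
      hb2, ?_, ?_⟩
    · rw [e2]
      constructor <;> simp [rcall]
    · rw [e2]
      simp [rcall]
  | head hs hp ih =>
    intro φ hb hk hz hfin hq hA hri hrd hdd
    have hmono := path_mono hp
    cases hs with
    | repl q A i e q' A'' a h hbi =>
      simp only at hq hA hri hrd
      subst hq hA hri
      have e1 := upd_rstep_repl (w := w) φ h
      have hb1 : (φ.upd w (rstepF M)).Bdd b := by
        rw [e1]
        exact Bdd.update (c := φ.ctl) hb _ hbi
      have hx : Exec w (bodyC M) b k (rbodyC M) φ (φ.upd w (rstepF M)) := by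
        refine Exec.seq _ _ _ _ _ _ (Exec.act _ _ _ hb1) ?_
        refine Exec.iteF _ _ _ _ _ _ (by rw [e1]) ?_
        exact Exec.act _ (skipF M) (φ.upd w (rstepF M)) hb1
      obtain ⟨χ, h1, h2, h3, h4⟩ := ih (φ.upd w (rstepF M)) hb1 (by rw [e1]; simpa using hk)
        (by rw [e1]; simpa using hz) (by rw [e1]; simpa using hfin) (by rw [e1]) (by rw [e1])
        (by rw [e1]; simp) (by rw [e1]; simpa using hrd) (by rw [e1]; simpa using hdd)
      refine ⟨χ, Exec.whlT _ _ _ _ _ _ (by simp [hfin]) hx h1, h2, Same.trans ?_ h3, h4⟩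
      rw [e1]
      constructor <;> simp
    | light q A i e q' B A'' a r₁ j₁ σ₁ t₁ p₁ h h1 hb1 hσ =>
      simp only at hq hA hri hrd
      subst hq hA hri
      have hj := (cell_pos h1).1
      have e2 := upd_rafter_some (w := w) (rcall φ k q' B A'' (if σ₁ < k then some r₁ else none)
        (if σ₁ < k then j₁ else φ.reg Rg.ri + a.toNat)) (q₂ := r₁) (by simp [rcall, hσ])
      have hb2 : ((rcall φ k q' B A'' (if σ₁ < k then some r₁ else none)
          (if σ₁ < k then j₁ else φ.reg Rg.ri + a.toNat)).upd w (rafterF M)).Bdd b := by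
        rw [e2]
        simp only [rcall, if_pos hσ]
        refine Bdd.update (c := φ.ctl) (Bdd.update (c := φ.ctl) hb _ (by omega)) _ ?_
        simp; omega
      have hx := rbody_push IH φ hb hk hz h h1 hb1 hb2
      obtain ⟨χ, h5, h6, h7, h8⟩ := ih _ hb2
        (by rw [e2]; simpa [rcall] using hk) (by rw [e2]; simpa [rcall] using hz)
        (by rw [e2]; simpa [rcall] using hfin) (by rw [e2]) (by rw [e2]; simp [rcall])
        (by rw [e2]; simp [rcall, hσ]) (by rw [e2]; simpa [rcall] using hrd)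
        (by rw [e2]; simpa [rcall] using hdd)
      refine ⟨χ, Exec.whlT _ _ _ _ _ _ (by simp [hfin]) hx h5, h6, Same.trans ?_ h7, h8⟩
      rw [e2]
      constructor <;> simp [rcall]
    | heavy q A i e q' B A'' a r₁ j₁ σ₁ t₁ p₁ h h1 hb1 hσ =>
      simp only at hq hA hri hrd hmono
      subst hq hA hri
      have hσ' : ¬ σ₁ < k := not_lt.2 hσ
      have e2 := upd_rafter_down (w := w) (rcall φ k q' B A'' (if σ₁ < k then some r₁ else none)
        (if σ₁ < k then j₁ else φ.reg Rg.ri + a.toNat)) (by simp [rcall, hσ'])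
        (by simp [rcall, hrd, hdd]; omega)
      have hb2 : ((rcall φ k q' B A'' (if σ₁ < k then some r₁ else none)
          (if σ₁ < k then j₁ else φ.reg Rg.ri + a.toNat)).upd w (rafterF M)).Bdd b := by
        rw [e2]
        simp only [rcall, if_neg hσ']
        refine Bdd.update (c := φ.ctl) (Bdd.update (c := φ.ctl)
          (Bdd.update (c := φ.ctl) hb _ (by omega)) _ ?_) _ ?_
        · simp; omega
        · simp [hrd]; omega
      have hx := rbody_push IH φ hb hk hz h h1 hb1 hb2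
      obtain ⟨χ, h5, h6, h7, h8⟩ := ih _ hb2
        (by rw [e2]; simpa [rcall] using hk) (by rw [e2]; simpa [rcall] using hz)
        (by rw [e2]; simpa [rcall] using hfin) (by rw [e2]; simp [rcall])
        (by rw [e2]; simp [rcall])
        (by rw [e2]; simp [rcall, hσ']) (by rw [e2]; simp [rcall, hrd])
        (by rw [e2]; simpa [rcall] using hdd)
      refine ⟨χ, Exec.whlT _ _ _ _ _ _ (by simp [hfin]) hx h5, h6, Same.trans ?_ h7, h8⟩
      rw [e2]
      constructor <;> simp [rcall]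

end Pool.Agent.V7H64.SP
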