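import Pool.Agent.V7H64.SP.Alg
import Pool.Agent.V7H64.SP.Cells

/-!
# The effect of the single steps of the simulation
-/

set_option autoImplicit false

namespace Pool.Agent.V7H64.SP

variable {S : Type} {M : DPDA S} {w : List S}

theorem upd_eq (φ : Frame (Ctl M.Q M.Γ) Rg) (f : F S M) {c : Ctl M.Q M.Γ} {s : Rg → Src Rg}
    (h : f φ.ctl (fun v => w[φ.reg v]?) (fun v v' => decide (φ.reg v = φ.reg v')) = (c, s)) :
    φ.upd w f = ⟨c, fun v => (s v).eval φ.reg⟩ := by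
  unfold Frame.upd
  rw [h]

open Function (update)

theorem upd_step_pop0 (φ : Frame (Ctl M.Q M.Γ) Rg) {q' : M.Q} {a : Bool}
    (h : M.δ φ.ctl.q φ.ctl.A w[φ.reg Rg.i]? = Act.pop q' a) (hd : φ.reg Rg.d = φ.reg Rg.z) :
    φ.upd w (stepF M) =
      ⟨{ φ.ctl with q := q', fin := true, ans := some q', fc := false, fp := false },
        update φ.reg Rg.i (φ.reg Rg.i + a.toNat)⟩ := by
  rw [upd_eq φ (stepF M)
    (c := { φ.ctl with q := q', fin := true, ans := some q', fc := false, fp := false })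
    (s := one Rg.i (adv a Rg.i))]
  · rw [eval_one, eval_adv]
  · unfold stepF
    simp [h, hd]

theorem upd_step_pop1 (φ : Frame (Ctl M.Q M.Γ) Rg) {q' : M.Q} {a : Bool}
    (h : M.δ φ.ctl.q φ.ctl.A w[φ.reg Rg.i]? = Act.pop q' a) (hd : φ.reg Rg.d ≠ φ.reg Rg.z) :
    φ.upd w (stepF M) =
      ⟨{ φ.ctl with q := q', fc := false, fp := true },
        update (update φ.reg Rg.i (φ.reg Rg.i + a.toNat)) Rg.d (φ.reg Rg.d - 1)⟩ := by
  rw [upd_eq φ (stepF M) (c := { φ.ctl with q := q', fc := false, fp := true })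
    (s := two Rg.i (adv a Rg.i) Rg.d (Src.pred Rg.d))]
  · rw [eval_two _ _ _ _ _ (by decide), eval_adv]
    rfl
  · unfold stepF
    simp [h, hd]

theorem upd_step_repl (φ : Frame (Ctl M.Q M.Γ) Rg) {q' : M.Q} {A' : M.Γ} {a : Bool}
    (h : M.δ φ.ctl.q φ.ctl.A w[φ.reg Rg.i]? = Act.repl q' A' a) :
    φ.upd w (stepF M) =
      ⟨{ φ.ctl with q := q', A := A', fc := false, fp := false },
        update φ.reg Rg.i (φ.reg Rg.i + a.toNat)⟩ := by
  rw [upd_eq φ (stepF M) (c := { φ.ctl with q := q', A := A', fc := false, fp := false })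
    (s := one Rg.i (adv a Rg.i))]
  · rw [eval_one, eval_adv]
  · unfold stepF
    simp [h]

theorem upd_step_push (φ : Frame (Ctl M.Q M.Γ) Rg) {q' : M.Q} {B A' : M.Γ} {a : Bool}
    (h : M.δ φ.ctl.q φ.ctl.A w[φ.reg Rg.i]? = Act.push q' B A' a) :
    φ.upd w (stepF M) =
      ⟨{ φ.ctl with cq := q', cB := B, cA := A', fc := true, fp := false },
        update φ.reg Rg.ci (φ.reg Rg.i + a.toNat)⟩ := by
  rw [upd_eq φ (stepF M) (c := { φ.ctl with cq := q', cB := B, cA := A', fc := true, fp := false })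
    (s := one Rg.ci (adv a Rg.i))]
  · rw [eval_one, eval_adv]
  · unfold stepF
    simp [h]

theorem upd_rstep_repl (φ : Frame (Ctl M.Q M.Γ) Rg) {q' : M.Q} {A' : M.Γ} {a : Bool}
    (h : M.δ φ.ctl.rq φ.ctl.rA w[φ.reg Rg.ri]? = Act.repl q' A' a) :
    φ.upd w (rstepF M) =
      ⟨{ φ.ctl with rq := q', rA := A', fc := false },
        update φ.reg Rg.ri (φ.reg Rg.ri + a.toNat)⟩ := by
  rw [upd_eq φ (rstepF M) (c := { φ.ctl with rq := q', rA := A', fc := false })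
    (s := one Rg.ri (adv a Rg.ri))]
  · rw [eval_one, eval_adv]
  · unfold rstepF
    simp [h]

theorem upd_rstep_push (φ : Frame (Ctl M.Q M.Γ) Rg) {q' : M.Q} {B A' : M.Γ} {a : Bool}
    (h : M.δ φ.ctl.rq φ.ctl.rA w[φ.reg Rg.ri]? = Act.push q' B A' a) :
    φ.upd w (rstepF M) =
      ⟨{ φ.ctl with cq := q', cB := B, cA := A', fc := true },
        update φ.reg Rg.ci (φ.reg Rg.ri + a.toNat)⟩ := by
  rw [upd_eq φ (rstepF M) (c := { φ.ctl with cq := q', cB := B, cA := A', fc := true })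
    (s := one Rg.ci (adv a Rg.ri))]
  · rw [eval_one, eval_adv]
  · unfold rstepF
    simp [h]

theorem upd_after_some (φ : Frame (Ctl M.Q M.Γ) Rg) {q₂ : M.Q} (h : φ.ctl.got = some q₂) :
    φ.upd w (afterF M) =
      ⟨{ φ.ctl with q := q₂, A := φ.ctl.cA }, update φ.reg Rg.i (φ.reg Rg.ci)⟩ := by
  rw [upd_eq φ (afterF M) (c := { φ.ctl with q := q₂, A := φ.ctl.cA })
    (s := one Rg.i (Src.copy Rg.ci))]
  · rw [eval_one]; rfl
  · unfold afterF
    simp [h]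

theorem upd_after_none_up (φ : Frame (Ctl M.Q M.Γ) Rg) (h : φ.ctl.got = none)
    (hu : φ.ctl.up = true) :
    φ.upd w (afterF M) = ⟨{ φ.ctl with fin := true, ans := none }, φ.reg⟩ := by
  rw [upd_eq φ (afterF M) (c := { φ.ctl with fin := true, ans := none }) (s := Src.copy)]
  · rfl
  · unfold afterF
    simp [h, hu]

theorem upd_after_none_down (φ : Frame (Ctl M.Q M.Γ) Rg) (h : φ.ctl.got = none)
    (hu : φ.ctl.up = false) :
    φ.upd w (afterF M) = ⟨{ φ.ctl with q := φ.ctl.cq, A := φ.ctl.cB },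
      update (update φ.reg Rg.i (φ.reg Rg.ci)) Rg.d (φ.reg Rg.d + 1)⟩ := by
  rw [upd_eq φ (afterF M) (c := { φ.ctl with q := φ.ctl.cq, A := φ.ctl.cB })
    (s := two Rg.i (Src.copy Rg.ci) Rg.d (Src.succ Rg.d))]
  · rw [eval_two _ _ _ _ _ (by decide)]; rfl
  · unfold afterF
    simp [h, hu]

theorem upd_rafter_some (φ : Frame (Ctl M.Q M.Γ) Rg) {q₂ : M.Q} (h : φ.ctl.got = some q₂) :
    φ.upd w (rafterF M) =
      ⟨{ φ.ctl with rq := q₂, rA := φ.ctl.cA }, update φ.reg Rg.ri (φ.reg Rg.ci)⟩ := by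
  rw [upd_eq φ (rafterF M) (c := { φ.ctl with rq := q₂, rA := φ.ctl.cA })
    (s := one Rg.ri (Src.copy Rg.ci))]
  · rw [eval_one]; rfl
  · unfold rafterF
    simp [h]

theorem upd_rafter_stop (φ : Frame (Ctl M.Q M.Γ) Rg) (h : φ.ctl.got = none)
    (hd : φ.reg Rg.rd = φ.reg Rg.d) :
    φ.upd w (rafterF M) = ⟨{ φ.ctl with rA := φ.ctl.cA, rfin := true }, φ.reg⟩ := by
  rw [upd_eq φ (rafterF M) (c := { φ.ctl with rA := φ.ctl.cA, rfin := true }) (s := Src.copy)]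
  · rfl
  · unfold rafterF
    simp [h, hd]

theorem upd_rafter_down (φ : Frame (Ctl M.Q M.Γ) Rg) (h : φ.ctl.got = none)
    (hd : φ.reg Rg.rd ≠ φ.reg Rg.d) :
    φ.upd w (rafterF M) = ⟨{ φ.ctl with rq := φ.ctl.cq, rA := φ.ctl.cB },
      update (update φ.reg Rg.ri (φ.reg Rg.ci)) Rg.rd (φ.reg Rg.rd + 1)⟩ := by
  rw [upd_eq φ (rafterF M) (c := { φ.ctl with rq := φ.ctl.cq, rA := φ.ctl.cB })
    (s := two Rg.ri (Src.copy Rg.ci) Rg.rd (Src.succ Rg.rd))]
  · rw [eval_two _ _ _ _ _ (by decide)]; rfl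
  · unfold rafterF
    simp [h, hd]

theorem upd_rinit (φ : Frame (Ctl M.Q M.Γ) Rg) :
    φ.upd w (rinitF M) = ⟨{ φ.ctl with rq := φ.ctl.q0, rA := φ.ctl.A0, rfin := false },
      update (update φ.reg Rg.ri (φ.reg Rg.i0)) Rg.rd 0⟩ := by
  rw [upd_eq φ (rinitF M) (c := { φ.ctl with rq := φ.ctl.q0, rA := φ.ctl.A0, rfin := false })
    (s := two Rg.ri (Src.copy Rg.i0) Rg.rd Src.zero)]
  · rw [eval_two _ _ _ _ _ (by decide)]; rfl
  · rfl

theorem upd_afterP (φ : Frame (Ctl M.Q M.Γ) Rg) :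
    φ.upd w (afterPF M) = ⟨{ φ.ctl with A := φ.ctl.rA, up := true }, φ.reg⟩ := rfl

theorem upd_skip (φ : Frame (Ctl M.Q M.Γ) Rg) : φ.upd w (skipF M) = φ := rfl

theorem upd_none (φ : Frame (Ctl M.Q M.Γ) Rg) :
    φ.upd w (noneF M) = ⟨{ φ.ctl with got := none }, φ.reg⟩ := rfl

theorem upd_kz (φ : Frame (Ctl M.Q M.Γ) Rg) :
    φ.upd w (kzF M) = ⟨{ φ.ctl with kz := decide (φ.reg Rg.k = φ.reg Rg.z) }, φ.reg⟩ := rfl

theorem Bdd.update {K : Type} {b : ℕ} {c c' : K} {ρ : Rg → ℕ} (h : (Frame.mk c ρ).Bdd b) (v : Rg)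
    {x : ℕ} (hx : x ≤ b) : (Frame.mk c' (Function.update ρ v x)).Bdd b := by
  intro v'
  show Function.update ρ v x v' ≤ b
  by_cases hv : v' = v
  · subst hv; simpa using hx
  · simpa [hv] using h v'

end Pool.Agent.V7H64.SP
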